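import Pool.Agent.K1H11.NS5.Norms
import Pool.Agent.K1H11.NS3.ZeroOne

/-!
# The force, local existence, admissible forced solutions
-/

open MeasureTheory Set Filter Topology
open scoped ENNReal NNReal ContDiff

namespace Pool.Agent.K1H11.NS

open H459R3.NS (cube SP Per IsSol fr)
open Pool.Agent.H356R3.NS (AdmissiblePeriodic R3 shellSum critNorm leiLin)

lemma cut_smooth {T α β : ℝ} (hα : 0 < α) (hβ : β < T) {φ : ℝ → ℝ} (hφ : ContDiff ℝ ∞ φ)
    (h0 : ∀ t, t ∉ Icc α β → φ t = 0) {G : ℝ → E3 → ℝ}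
    (hG : ContDiffOn ℝ ∞ (fun z : ℝ × E3 => G z.1 z.2) (Ico 0 T ×ˢ univ)) :
    ContDiff ℝ ∞ fun z : ℝ × E3 => φ z.1 * G z.1 z.2 := by
  have hφ' : ContDiff ℝ ∞ fun z : ℝ × E3 => φ z.1 := hφ.comp contDiff_fst
  rw [contDiff_iff_contDiffAt]
  rintro ⟨t, x⟩
  rcases le_or_gt t 0 with h | h
  · have e : (fun z : ℝ × E3 => φ z.1 * G z.1 z.2) =ᶠ[𝓝 (t, x)] fun _ => 0 := by
      have : (Iio α ×ˢ univ : Set (ℝ × E3)) ∈ 𝓝 (t, x) := prod_mem_nhds (Iio_mem_nhds (h.trans_lt hα)) univ_mem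
      filter_upwards [this] with z hz
      have hz1 : z.1 < α := hz.1
      rw [h0 z.1 (fun hz2 => absurd hz2.1 (not_le.2 hz1)), zero_mul]
    exact contDiffAt_const.congr_of_eventuallyEq e
  · rcases lt_or_ge t T with h' | h'
    · exact hφ'.contDiffAt.mul (hG.contDiffAt (prod_mem_nhds (Ico_mem_nhds h h') univ_mem))
    · have e : (fun z : ℝ × E3 => φ z.1 * G z.1 z.2) =ᶠ[𝓝 (t, x)] fun _ => 0 := by
        have : (Ioi β ×ˢ univ : Set (ℝ × E3)) ∈ 𝓝 (t, x) := prod_mem_nhds (Ioi_mem_nhds (hβ.trans_le h')) univ_mem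
        filter_upwards [this] with z hz
        have hz1 : β < z.1 := hz.1
        rw [h0 z.1 (fun hz2 => absurd hz2.2 (not_le.2 hz1)), zero_mul]
      exact contDiffAt_const.congr_of_eventuallyEq e

lemma ga_smooth {T τ : ℝ} (hτ : 0 < τ) (hT : τ < T) {a : ℝ → E3 → E3} (h : SFV T a) :
    ContDiff ℝ ∞ fun z : ℝ × E3 => ga τ a z.1 z.2 := by
  rw [contDiff_pi]
  intro i
  have hd : ContDiff ℝ ∞ (deriv (sw τ)) := (contDiff_infty_iff_deriv.1 (sw_smooth τ)).2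
  have b1 : 0 < τ / 3 := by positivity
  have b2 : 2 * τ / 3 < T := by linarith
  have h1 := cut_smooth (T := T) b1 b2 (G := fun t y => a t y i) hd (fun t ht => sw_deriv_zero hτ ht) (h i).smooth
  have h2 := cut_smooth (T := T) b1 b2 (G := fun t y => nl a t y i)
    ((sw_smooth τ).mul (contDiff_const.sub (sw_smooth τ))) (fun t ht => sw_prod_zero hτ ht) (h.nl i).smooth
  exact h1.sub h2

lemma ga_per {T τ : ℝ} (hτ : 0 < τ) (hT : τ < T) {a : ℝ → E3 → E3} (h : SFV T a) (t : ℝ) (x : E3) (j : Fin 3) :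
    ga τ a t (x + Pi.single j 1) = ga τ a t x := by
  by_cases ht : t ∈ Icc (τ / 3) (2 * τ / 3)
  · have htT : t ∈ Ico 0 T := ⟨by have := ht.1; linarith, by have := ht.2; linarith⟩
    funext i
    have e1 := (h i).per t htT j x
    have e2 := (h.nl i).per t htT j x
    show deriv (sw τ) t * a t (x + Pi.single j 1) i - sw τ t * (1 - sw τ t) * nl a t (x + Pi.single j 1) i =
      deriv (sw τ) t * a t x i - sw τ t * (1 - sw τ t) * nl a t x i
    rw [e1, e2]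
  · rw [ga_zero hτ ht]; rfl

lemma int_nl {T : ℝ} {a : ℝ → E3 → E3} (h : SFV T a) {t : ℝ} (ht : t ∈ Ico 0 T)
    (hd : ∀ x, ∑ i, H459R3.NS.pd i (fun y => a t y i) x = 0) (i : Fin 3) : ∫ x in cube, nl a t x i = 0 := by
  have hs : ∀ j, SP fun y => a t y j := fun j => (h j).sp ht
  unfold nl
  rw [integral_finset_sum _ fun j _ => ((hs j).mul ((hs i).pd j)).int]
  have e1 : ∀ j, ∫ x in cube, a t x j * H459R3.NS.pd j (fun y => a t y i) x =
      -∫ x in cube, H459R3.NS.pd j (fun y => a t y j) x * a t x i := by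
    intro j
    rw [H459R3.NS.ibp (hs j) (hs i) j]; ring
  simp_rw [e1]
  rw [Finset.sum_neg_distrib, ← integral_finset_sum _ fun j _ => (((hs j).pd j).mul (hs i)).int]
  simp_rw [← Finset.sum_mul, hd]
  simp

lemma int_ga {T τ : ℝ} (hτ : 0 < τ) (hT : τ < T) {a : ℝ → E3 → E3} (h : SFV T a)
    (hd : ∀ t ∈ Ico 0 T, ∀ x, ∑ i, H459R3.NS.pd i (fun y => a t y i) x = 0)
    (hm : ∀ t ∈ Ico 0 T, ∀ i, ∫ x in cube, a t x i = 0) (t : ℝ) (i : Fin 3) : ∫ x in cube, ga τ a t x i = 0 := by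
  by_cases ht : t ∈ Icc (τ / 3) (2 * τ / 3)
  · have htT : t ∈ Ico 0 T := ⟨by have := ht.1; linarith, by have := ht.2; linarith⟩
    have e : (fun x => ga τ a t x i) = fun x => deriv (sw τ) t * a t x i - sw τ t * (1 - sw τ t) * nl a t x i := rfl
    rw [e, integral_sub (((h i).sp htT).int.const_mul _) (((h.nl i).sp htT).int.const_mul _), integral_const_mul,
      integral_const_mul, hm t htT, int_nl h htT (hd t htT)]
    ring
  · rw [ga_zero hτ ht]; simp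

/-- Local existence. -/
theorem exists_local {ν : ℝ} (hν : 0 < ν) {v : E3 → E3} (hv : ∀ i, SP fun x => v x i)
    (hd : ∀ x, ∑ i, H459R3.NS.pd i (fun y => v y i) x = 0) :
    ∃ (T : ℝ) (u : ℝ → E3 → E3) (p : ℝ → E3 → ℝ), 0 < T ∧ IsSol ν T u p ∧ u 0 = v := by
  have hpi := Real.pi_pos
  have hc : 0 < 4 * Real.pi ^ 2 * ν := by positivity
  obtain ⟨T, F, a, W, hT, hCF, hF, ha, hW⟩ := local_solF hc (FV_sym v) (by
    funext i; exact FV_zero hv i) (FV_rr hv)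
  set m : E3 := fun i => ∫ x in cube, v x i with hm
  obtain ⟨u', h1, -, h2⟩ := sol_local hCF hF ha (FV_dt hv hd) hW m (half_pos hT) (by linarith)
  refine ⟨T / 2, _, _, half_pos hT, h2, ?_⟩
  have e : (fun (x : E3) (i : Fin 3) => m i + (GS m (cf' u' i) 0 x).re) = v := by
    rw [← FV_series hv (m := m) (fun i => rfl)]
    funext x i
    have h0' : ∀ k, u' k 0 = FV v k := fun k => by rw [h1 k 0 le_rfl (half_pos hT).le, hW.at_zero]
    unfold GS SF
    simp only [zero_smul, sub_zero, cf', h0']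
  exact e

/-- An admissible periodic solution of the forced equations: `u` and `p` are `C^∞` on `[0, ∞) × ℝ³` and periodic,
`∂ₜuᵢ + ∑ⱼ uⱼ∂ⱼuᵢ = ν Δuᵢ - ∂ᵢp + fᵢ`, `div u = 0` and `u(0) = v`. -/
structure AdmissibleForced (ν : ℝ) (f : ℝ → R3 → R3) (v : R3 → R3) (u : ℝ → R3 → R3) (p : ℝ → R3 → ℝ) : Prop where
  smooth_u : ContDiffOn ℝ ∞ (fun z : ℝ × R3 => u z.1 z.2) (Ici 0 ×ˢ univ)
  smooth_p : ContDiffOn ℝ ∞ (fun z : ℝ × R3 => p z.1 z.2) (Ici 0 ×ˢ univ)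
  periodic_u : ∀ t, 0 ≤ t → ∀ x j, u t (x + Pi.single j 1) = u t x
  periodic_p : ∀ t, 0 ≤ t → ∀ x j, p t (x + Pi.single j 1) = p t x
  momentum : ∀ t, 0 ≤ t → ∀ x i,
    derivWithin (fun s => u s x i) (Ici 0) t + ∑ j, u t x j * Pool.Agent.H356R3.NS.pd j (fun y => u t y i) x
      = ν * ∑ j, Pool.Agent.H356R3.NS.pd j (Pool.Agent.H356R3.NS.pd j fun y => u t y i) x -
        Pool.Agent.H356R3.NS.pd i (p t) x + f t x i
  divFree : ∀ t, 0 ≤ t → ∀ x, ∑ i, Pool.Agent.H356R3.NS.pd i (fun y => u t y i) x = 0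
  initial : u 0 = v

lemma AdmissibleForced.isSolF {ν : ℝ} {f : ℝ → E3 → E3} {v : E3 → E3} {u : ℝ → E3 → E3} {p : ℝ → E3 → ℝ}
    (h : AdmissibleForced ν f v u p) (T : ℝ) : IsSolF ν T f u p := by
  refine ⟨h.smooth_u.mono (prod_mono (fun s hs => hs.1) subset_rfl),
    h.smooth_p.mono (prod_mono (fun s hs => hs.1) subset_rfl), fun t ht j x => h.periodic_u t ht.1 x j,
    fun t ht j x => h.periodic_p t ht.1 x j, fun t ht x => h.divFree t ht.1 x, fun t ht x i => ?_⟩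
  have h1 := h.momentum t ht.1.le x i
  rw [derivWithin_of_mem_nhds (Ici_mem_nhds ht.1)] at h1
  exact h1

lemma smooth_Ici {E : Type*} [NormedAddCommGroup E] [NormedSpace ℝ E] {g : ℝ × E3 → E}
    (h : ∀ T : ℝ, 0 < T → ContDiffOn ℝ ∞ g (Ico 0 T ×ˢ univ)) : ContDiffOn ℝ ∞ g (Ici 0 ×ˢ univ) := by
  rintro ⟨t, x⟩ ⟨ht, -⟩
  have ht0 : (0 : ℝ) ≤ t := ht
  refine (h (t + 1) (by linarith) (t, x) ⟨⟨ht, by linarith⟩, mem_univ _⟩).mono_of_mem_nhdsWithin ?_
  have : (Iio (t + 1) ×ˢ univ : Set (ℝ × E3)) ∈ 𝓝 (t, x) := prod_mem_nhds (Iio_mem_nhds (by linarith)) univ_mem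
  filter_upwards [mem_nhdsWithin_of_mem_nhds this, self_mem_nhdsWithin] with z hz hz2
  exact ⟨⟨hz2.1, hz.1⟩, mem_univ _⟩

/-- Solutions on all finite time intervals are admissible solutions. -/
theorem adm_forced {ν : ℝ} {f : ℝ → E3 → E3} {u : ℝ → E3 → E3} {p : ℝ → E3 → ℝ}
    (hf : ContDiff ℝ ∞ fun z : ℝ × E3 => f z.1 z.2) (h : ∀ T : ℝ, 0 < T → IsSolF ν T f u p) :
    AdmissibleForced ν f (u 0) u p := by
  have hsu : ContDiffOn ℝ ∞ (fun z : ℝ × E3 => u z.1 z.2) (Ici 0 ×ˢ univ) := smooth_Ici fun T hT => (h T hT).smooth_u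
  have hT : ∀ t : ℝ, 0 ≤ t → t ∈ Ico 0 (t + 1) := fun t ht => ⟨ht, by linarith⟩
  refine ⟨hsu, smooth_Ici fun T hT => (h T hT).smooth_p,
    fun t ht x j => (h (t + 1) (by linarith)).per_u t (hT t ht) j x,
    fun t ht x j => (h (t + 1) (by linarith)).per_p t (hT t ht) j x, ?_,
    fun t ht x => (h (t + 1) (by linarith)).divfree t (hT t ht) x, rfl⟩
  intro t ht x i
  have hpos : ∀ t, 0 < t → derivWithin (fun s => u s x i) (Ici 0) t +
      ∑ j, u t x j * Pool.Agent.H356R3.NS.pd j (fun y => u t y i) x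
      = ν * ∑ j, Pool.Agent.H356R3.NS.pd j (Pool.Agent.H356R3.NS.pd j fun y => u t y i) x -
        Pool.Agent.H356R3.NS.pd i (p t) x + f t x i := by
    intro t ht
    have h1 := (h (t + 1) (by linarith)).momentum t ⟨ht, by linarith⟩ x i
    rw [derivWithin_of_mem_nhds (Ici_mem_nhds ht)]
    exact h1
  rcases ht.eq_or_lt with h0 | h0
  swap
  · exact hpos t h0
  subst h0
  -- the limit t -> 0
  have h1 := h 1 one_pos
  have hslice : ∀ {G : ℝ → E3 → ℝ}, Ev.SF 1 G → ContinuousOn (fun s => G s x) (Ico 0 1) := by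
    intro G hG
    exact hG.smooth.continuousOn.comp (f := fun s : ℝ => ((s, x) : ℝ × E3)) (by fun_prop)
      fun s hs => ⟨hs, mem_univ _⟩
  have hD : ContinuousOn (derivWithin (fun s => u s x i) (Ici 0)) (Ici 0) := by
    have hu : ContDiffOn ℝ ∞ (fun s => u s x i) (Ici 0) := by
      have h3 := (contDiffOn_pi.1 hsu) i
      have h4 : ContDiff ℝ ∞ fun s : ℝ => ((s, x) : ℝ × E3) := contDiff_id.prodMk contDiff_const
      exact h3.comp h4.contDiffOn fun s hs => ⟨hs, mem_univ _⟩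
    exact hu.continuousOn_derivWithin (uniqueDiffOn_Ici 0) (by simp)
  set A : ℝ → ℝ := fun t => derivWithin (fun s => u s x i) (Ici 0) t +
      ∑ j, u t x j * Pool.Agent.H356R3.NS.pd j (fun y => u t y i) x with hA
  set B : ℝ → ℝ := fun t => ν * ∑ j, Pool.Agent.H356R3.NS.pd j (Pool.Agent.H356R3.NS.pd j fun y => u t y i) x -
        Pool.Agent.H356R3.NS.pd i (p t) x + f t x i with hB
  have hAc : ContinuousOn A (Ico 0 1) := by
    refine (hD.mono Ico_subset_Ici_self).add ?_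
    exact hslice (SF_sum3 fun j => EvSF_mul (h1.SF j) ((h1.SF i).pd j))
  have hfc : Continuous fun s => f s x i := by
    have h4 : Continuous fun s : ℝ => ((s, x) : ℝ × E3) := by fun_prop
    exact (continuous_apply i).comp (hf.continuous.comp h4)
  have hBc : ContinuousOn B (Ico 0 1) := by
    refine ((continuousOn_const.mul ?_).sub ?_).add hfc.continuousOn
    · exact hslice (SF_sum3 fun j => ((h1.SF i).pd j).pd j)
    · exact hslice (h1.SFp.pd i)
  have hAB : ∀ s ∈ Ioo (0 : ℝ) 1, A s = B s := fun s hs => hpos s hs.1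
  have hmem : (0 : ℝ) ∈ Ico 0 1 := ⟨le_rfl, one_pos⟩
  have l1 : Tendsto A (𝓝[Ioo 0 1] 0) (𝓝 (A 0)) := (hAc 0 hmem).mono Ioo_subset_Ico_self
  have l2 : Tendsto B (𝓝[Ioo 0 1] 0) (𝓝 (B 0)) := (hBc 0 hmem).mono Ioo_subset_Ico_self
  have l3 : Tendsto A (𝓝[Ioo 0 1] 0) (𝓝 (B 0)) := l2.congr' (by
    filter_upwards [self_mem_nhdsWithin] with s hs
    exact (hAB s hs).symm)
  have hne : (𝓝[Ioo (0 : ℝ) 1] 0).NeBot := left_nhdsWithin_Ioo_neBot one_pos
  exact tendsto_nhds_unique l1 l3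

lemma AdmissibleForced.toPeriodic {ν : ℝ} {v : E3 → E3} {u : ℝ → E3 → E3} {p : ℝ → E3 → ℝ}
    (h : AdmissibleForced ν (fun _ _ _ => 0) v u p) : AdmissiblePeriodic ν v u p :=
  ⟨h.smooth_u, h.smooth_p, h.periodic_u, h.periodic_p, fun t ht x i => by
    have := h.momentum t ht x i
    rwa [add_zero] at this, h.divFree, h.initial⟩

end Pool.Agent.K1H11.NS
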