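import Pool.Agent.K1H11.NS4.FamB

/-!
# Joining two solutions with the help of a force
-/

open MeasureTheory Set Filter Topology
open scoped ENNReal NNReal ContDiff

namespace Pool.Agent.K1H11.NS

open H459R3.NS (cube SP Per IsSol)

/-- `(u, p)` is a smooth periodic solution with the force `f` on the time interval `[0, T)`. -/
structure IsSolF (ν T : ℝ) (f : ℝ → E3 → E3) (u : ℝ → E3 → E3) (p : ℝ → E3 → ℝ) : Prop where
  smooth_u : ContDiffOn ℝ ∞ (fun z : ℝ × E3 => u z.1 z.2) (Ico 0 T ×ˢ univ)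
  smooth_p : ContDiffOn ℝ ∞ (fun z : ℝ × E3 => p z.1 z.2) (Ico 0 T ×ˢ univ)
  per_u : ∀ t ∈ Ico 0 T, Per (u t)
  per_p : ∀ t ∈ Ico 0 T, Per (p t)
  divfree : ∀ t ∈ Ico 0 T, ∀ x, ∑ i, H459R3.NS.pd i (fun y => u t y i) x = 0
  momentum : ∀ t ∈ Ioo 0 T, ∀ x i,
    deriv (fun s => u s x i) t + ∑ j, u t x j * H459R3.NS.pd j (fun y => u t y i) x
      = ν * ∑ j, H459R3.NS.pd j (H459R3.NS.pd j (fun y => u t y i)) x - H459R3.NS.pd i (p t) x + f t x i

lemma IsSolF.of {ν T : ℝ} {u : ℝ → E3 → E3} {p : ℝ → E3 → ℝ} (h : IsSol ν T u p) : IsSolF ν T (fun _ _ _ => 0) u p :=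
  ⟨h.smooth_u, h.smooth_p, h.per_u, h.per_p, h.divfree, fun t ht x i => by rw [h.momentum t ht x i, add_zero]⟩

lemma IsSolF.to {ν T : ℝ} {f : ℝ → E3 → E3} {u : ℝ → E3 → E3} {p : ℝ → E3 → ℝ} (h : IsSolF ν T f u p)
    (hf : ∀ t ∈ Ioo 0 T, f t = 0) : IsSol ν T u p :=
  ⟨h.smooth_u, h.smooth_p, h.per_u, h.per_p, h.divfree, fun t ht x i => by
    rw [h.momentum t ht x i, hf t ht]; simp⟩

lemma IsSolF.mono {ν T T' : ℝ} {f : ℝ → E3 → E3} {u : ℝ → E3 → E3} {p : ℝ → E3 → ℝ} (h : IsSolF ν T f u p)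
    (hT : T' ≤ T) : IsSolF ν T' f u p :=
  ⟨h.smooth_u.mono (prod_mono (Ico_subset_Ico_right hT) subset_rfl),
    h.smooth_p.mono (prod_mono (Ico_subset_Ico_right hT) subset_rfl),
    fun t ht => h.per_u t ⟨ht.1, ht.2.trans_le hT⟩, fun t ht => h.per_p t ⟨ht.1, ht.2.trans_le hT⟩,
    fun t ht => h.divfree t ⟨ht.1, ht.2.trans_le hT⟩, fun t ht => h.momentum t ⟨ht.1, ht.2.trans_le hT⟩⟩

/-- Gluing of smooth functions with a cutoff in time. -/
lemma glue_smooth {E : Type*} [NormedAddCommGroup E] [NormedSpace ℝ E] {T₁ T₂ s₀ α β : ℝ} {g₁ g₂ : ℝ × E3 → E}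
    (h1 : ContDiffOn ℝ ∞ g₁ (Ico 0 T₁ ×ˢ univ)) (h2 : ContDiffOn ℝ ∞ g₂ (Ioo s₀ T₂ ×ˢ univ)) (hs : 0 ≤ s₀)
    {χ : ℝ → ℝ} (hχ : ContDiff ℝ ∞ χ) (hα : s₀ < α) (hαβ : α < β) (hβ : β < T₁) (hT : T₁ ≤ T₂)
    (hc0 : ∀ t ≤ α, χ t = 0) (hc1 : ∀ t, β ≤ t → χ t = 1) :
    ContDiffOn ℝ ∞ (fun z : ℝ × E3 => (1 - χ z.1) • g₁ z + χ z.1 • g₂ z) (Ico 0 T₂ ×ˢ univ) := by
  have hχ' : ContDiff ℝ ∞ fun z : ℝ × E3 => χ z.1 := hχ.comp contDiff_fst
  rintro ⟨t, x⟩ ⟨ht, -⟩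
  rcases lt_or_ge t α with h | h
  · have e : (fun z : ℝ × E3 => (1 - χ z.1) • g₁ z + χ z.1 • g₂ z) =ᶠ[𝓝[Ico 0 T₂ ×ˢ univ] (t, x)] g₁ := by
      have : (Iio α ×ˢ univ : Set (ℝ × E3)) ∈ 𝓝 (t, x) := prod_mem_nhds (Iio_mem_nhds h) univ_mem
      filter_upwards [mem_nhdsWithin_of_mem_nhds this] with z hz
      have hz1 : z.1 < α := hz.1
      rw [hc0 z.1 hz1.le]; simp
    have h3 : ContDiffWithinAt ℝ ∞ g₁ (Ico 0 T₂ ×ˢ univ) (t, x) := by
      refine (h1 (t, x) ⟨⟨ht.1, by linarith⟩, mem_univ _⟩).mono_of_mem_nhdsWithin ?_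
      have : (Iio T₁ ×ˢ univ : Set (ℝ × E3)) ∈ 𝓝 (t, x) := prod_mem_nhds (Iio_mem_nhds (by linarith)) univ_mem
      filter_upwards [mem_nhdsWithin_of_mem_nhds this, self_mem_nhdsWithin] with z hz hz2
      exact ⟨⟨hz2.1.1, hz.1⟩, mem_univ _⟩
    exact h3.congr_of_eventuallyEq e (by simp [hc0 t h.le])
  · rcases lt_or_ge t T₁ with h' | h'
    · have a1 : ContDiffAt ℝ ∞ g₁ (t, x) := h1.contDiffAt
        (prod_mem_nhds (Ico_mem_nhds (by linarith) h') univ_mem)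
      have a2 : ContDiffAt ℝ ∞ g₂ (t, x) := h2.contDiffAt
        (prod_mem_nhds (Ioo_mem_nhds (by linarith) (by linarith)) univ_mem)
      exact (((contDiffAt_const.sub hχ'.contDiffAt).smul a1).add (hχ'.contDiffAt.smul a2)).contDiffWithinAt
    · have a2 : ContDiffAt ℝ ∞ g₂ (t, x) := h2.contDiffAt
        (prod_mem_nhds (Ioo_mem_nhds (by linarith) ht.2) univ_mem)
      have e : (fun z : ℝ × E3 => (1 - χ z.1) • g₁ z + χ z.1 • g₂ z) =ᶠ[𝓝 (t, x)] g₂ := by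
        have : (Ioi β ×ˢ univ : Set (ℝ × E3)) ∈ 𝓝 (t, x) := prod_mem_nhds (Ioi_mem_nhds (by linarith)) univ_mem
        filter_upwards [this] with z hz
        have hz1 : β < z.1 := hz.1
        rw [hc1 z.1 hz1.le]; simp
      exact (a2.congr_of_eventuallyEq e).contDiffWithinAt

/-- the velocity of the join -/
def ju (χ : ℝ → ℝ) (s₀ : ℝ) (u₁ v : ℝ → E3 → E3) (t : ℝ) (x : E3) : E3 := (1 - χ t) • u₁ t x + χ t • v (t - s₀) x

/-- the pressure of the join -/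
def jp (χ : ℝ → ℝ) (s₀ : ℝ) (p₁ r : ℝ → E3 → ℝ) (t : ℝ) (x : E3) : ℝ := (1 - χ t) • p₁ t x + χ t • r (t - s₀) x

/-- the additional force of the join -/
noncomputable def jf (χ : ℝ → ℝ) (s₀ : ℝ) (u₁ v : ℝ → E3 → E3) (t : ℝ) (x : E3) (i : Fin 3) : ℝ :=
  deriv χ t * (v (t - s₀) x i - u₁ t x i) -
    χ t * (1 - χ t) * ∑ j, (v (t - s₀) x j - u₁ t x j) * H459R3.NS.pd j (fun y => v (t - s₀) y i - u₁ t y i) x

lemma ju_apply (χ : ℝ → ℝ) (s₀ : ℝ) (u₁ v : ℝ → E3 → E3) (t : ℝ) (x : E3) (i : Fin 3) :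
    ju χ s₀ u₁ v t x i = (1 - χ t) * u₁ t x i + χ t * v (t - s₀) x i := rfl

lemma pd_lin {f g : E3 → ℝ} (hf : SP f) (hg : SP g) (a b : ℝ) (j : Fin 3) (x : E3) :
    H459R3.NS.pd j (fun y => a * f y + b * g y) x = a * H459R3.NS.pd j f x + b * H459R3.NS.pd j g x := by
  have h1 : HasFDerivAt (fun y => a * f y + b * g y) (a • fderiv ℝ f x + b • fderiv ℝ g x) x :=
    ((hf.diff x).hasFDerivAt.const_mul a).add ((hg.diff x).hasFDerivAt.const_mul b)
  unfold H459R3.NS.pd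
  rw [h1.fderiv]
  rfl

theorem join {ν T₁ L s₀ : ℝ} {f₁ u₁ : ℝ → E3 → E3} {p₁ : ℝ → E3 → ℝ} {v : ℝ → E3 → E3} {r : ℝ → E3 → ℝ}
    (h1 : IsSolF ν T₁ f₁ u₁ p₁) (h2 : IsSol ν L v r) (hs : 0 ≤ s₀) {χ : ℝ → ℝ} (hχ : ContDiff ℝ ∞ χ) {α β : ℝ}
    (hα : s₀ < α) (hαβ : α < β) (hβ : β < T₁) (hT : T₁ ≤ s₀ + L) (hc0 : ∀ t ≤ α, χ t = 0)
    (hc1 : ∀ t, β ≤ t → χ t = 1) :
    IsSolF ν (s₀ + L) (fun t x i => (1 - χ t) * f₁ t x i + jf χ s₀ u₁ v t x i) (ju χ s₀ u₁ v) (jp χ s₀ p₁ r) := by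
  have hIoo : ∀ {t}, s₀ < t → t < s₀ + L → t - s₀ ∈ Ioo 0 L := fun h1 h2 => ⟨by linarith, by linarith⟩
  have hA : ContDiff ℝ ∞ fun z : ℝ × E3 => ((z.1 - s₀, z.2) : ℝ × E3) :=
    (contDiff_fst.sub contDiff_const).prodMk contDiff_snd
  have hmaps : MapsTo (fun z : ℝ × E3 => ((z.1 - s₀, z.2) : ℝ × E3)) (Ioo s₀ (s₀ + L) ×ˢ univ)
      (Ico 0 L ×ˢ univ) := by
    rintro z ⟨hz, -⟩
    exact ⟨⟨(hIoo hz.1 hz.2).1.le, (hIoo hz.1 hz.2).2⟩, mem_univ _⟩
  have hv : ContDiffOn ℝ ∞ (fun z : ℝ × E3 => v (z.1 - s₀) z.2) (Ioo s₀ (s₀ + L) ×ˢ univ) :=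
    h2.smooth_u.comp hA.contDiffOn hmaps
  have hr : ContDiffOn ℝ ∞ (fun z : ℝ × E3 => r (z.1 - s₀) z.2) (Ioo s₀ (s₀ + L) ×ˢ univ) :=
    h2.smooth_p.comp hA.contDiffOn hmaps
  -- slices
  have hu1c : ∀ i, ContDiffOn ℝ ∞ (fun z : ℝ × E3 => u₁ z.1 z.2 i) (Ico 0 T₁ ×ˢ univ) := fun i =>
    (contDiffOn_pi.1 h1.smooth_u) i
  have hu1 : ∀ t ∈ Ico 0 T₁, ∀ i, SP fun y => u₁ t y i := fun t ht i =>
    ⟨H459R3.NS.contDiff_slice (f := fun s y => u₁ s y i) (hu1c i) ht, fun j x => by simp only [h1.per_u t ht j x]⟩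
  have hv1 : ∀ t ∈ Ico 0 L, ∀ i, SP fun y => v t y i := fun t ht i => h2.sp ht i
  have hp1 : ∀ t ∈ Ico 0 T₁, SP (p₁ t) := fun t ht => ⟨H459R3.NS.contDiff_slice h1.smooth_p ht, h1.per_p t ht⟩
  have hr1 : ∀ t ∈ Ico 0 L, SP (r t) := fun t ht => ⟨H459R3.NS.contDiff_slice h2.smooth_p ht, h2.per_p t ht⟩
  -- the three zones
  have z1 : ∀ t ≤ α, ju χ s₀ u₁ v t = u₁ t := fun t ht => by
    funext x; unfold ju; rw [hc0 t ht]; simp
  have z1p : ∀ t ≤ α, jp χ s₀ p₁ r t = p₁ t := fun t ht => by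
    funext x; unfold jp; rw [hc0 t ht]; simp
  have z3 : ∀ t, β ≤ t → ju χ s₀ u₁ v t = v (t - s₀) := fun t ht => by
    funext x; unfold ju; rw [hc1 t ht]; simp
  have z3p : ∀ t, β ≤ t → jp χ s₀ p₁ r t = r (t - s₀) := fun t ht => by
    funext x; unfold jp; rw [hc1 t ht]; simp
  refine ⟨glue_smooth h1.smooth_u hv hs hχ hα hαβ hβ hT hc0 hc1, glue_smooth h1.smooth_p hr hs hχ hα hαβ hβ hT hc0 hc1,
    ?_, ?_, ?_, ?_⟩
  · intro t ht j x
    rcases le_or_gt t α with h | h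
    · rw [z1 t h]; exact h1.per_u t ⟨ht.1, by linarith⟩ j x
    · rcases lt_or_ge t T₁ with h' | h'
      · unfold ju
        rw [h1.per_u t ⟨ht.1, h'⟩ j x, h2.per_u (t - s₀) ⟨by linarith, by linarith⟩ j x]
      · rw [z3 t (by linarith)]; exact h2.per_u (t - s₀) ⟨by linarith, by linarith [ht.2]⟩ j x
  · intro t ht j x
    rcases le_or_gt t α with h | h
    · rw [z1p t h]; exact h1.per_p t ⟨ht.1, by linarith⟩ j x
    · rcases lt_or_ge t T₁ with h' | h'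
      · unfold jp
        rw [h1.per_p t ⟨ht.1, h'⟩ j x, h2.per_p (t - s₀) ⟨by linarith, by linarith⟩ j x]
      · rw [z3p t (by linarith)]; exact h2.per_p (t - s₀) ⟨by linarith, by linarith [ht.2]⟩ j x
  · intro t ht x
    rcases le_or_gt t α with h | h
    · rw [z1 t h]; exact h1.divfree t ⟨ht.1, by linarith⟩ x
    · rcases lt_or_ge t T₁ with h' | h'
      · have e : ∀ i, H459R3.NS.pd i (fun y => ju χ s₀ u₁ v t y i) x =
            (1 - χ t) * H459R3.NS.pd i (fun y => u₁ t y i) x + χ t * H459R3.NS.pd i (fun y => v (t - s₀) y i) x :=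
          fun i => pd_lin (hu1 t ⟨ht.1, h'⟩ i) (hv1 (t - s₀) ⟨by linarith, by linarith⟩ i) _ _ i x
        simp_rw [e]
        rw [Finset.sum_add_distrib, ← Finset.mul_sum, ← Finset.mul_sum, h1.divfree t ⟨ht.1, h'⟩,
          h2.divfree (t - s₀) ⟨by linarith, by linarith⟩, mul_zero, mul_zero, add_zero]
      · rw [z3 t (by linarith)]; exact h2.divfree (t - s₀) ⟨by linarith, by linarith [ht.2]⟩ x
  · intro t ht x i
    have hdv : ∀ t ∈ Ioo s₀ (s₀ + L), HasDerivAt (fun s => v (s - s₀) x i) (deriv (fun s => v s x i) (t - s₀)) t := by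
      intro t ht
      have h3 : HasDerivAt (fun s => v s x i) (deriv (fun s => v s x i) (t - s₀)) (t - s₀) := by
        have h4 := H459R3.NS.hasDerivAt_slice (F := fun s y => v s y i) (H459R3.NS.mono_Ioo (f := fun s y => v s y i) (h2.smooth_c i) (n := 1) (by norm_cast))
          (hIoo ht.1 ht.2) x
        exact h4.differentiableAt.hasDerivAt
      exact h3.comp_sub_const t s₀
    rcases lt_or_ge t α with h | h
    · have e1 : deriv (fun s => ju χ s₀ u₁ v s x i) t = deriv (fun s => u₁ s x i) t := by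
        apply Filter.EventuallyEq.deriv_eq
        filter_upwards [Iio_mem_nhds h] with s hs
        have hs' : s < α := hs
        rw [z1 s hs'.le]
      have e2 : deriv χ t = 0 := by
        have : χ =ᶠ[𝓝 t] fun _ => 0 := by
          filter_upwards [Iio_mem_nhds h] with s hs
          exact hc0 s (le_of_lt hs)
        rw [this.deriv_eq]; simp
      rw [e1, z1 t h.le, z1p t h.le, h1.momentum t ⟨ht.1, by linarith⟩ x i]
      unfold jf
      rw [e2, hc0 t h.le]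
      ring
    · rcases lt_or_ge t T₁ with h' | h'
      · have m1 := h1.momentum t ⟨ht.1, h'⟩ x i
        have m2 := h2.momentum (t - s₀) ⟨by linarith, by linarith⟩ x i
        have t1 : t ∈ Ico 0 T₁ := ⟨ht.1.le, h'⟩
        have t2 : t - s₀ ∈ Ico 0 L := ⟨by linarith, by linarith⟩
        have hdu : HasDerivAt (fun s => u₁ s x i) (deriv (fun s => u₁ s x i) t) t := by
          have h4 := H459R3.NS.hasDerivAt_slice (F := fun s y => u₁ s y i) (H459R3.NS.mono_Ioo (f := fun s y => u₁ s y i) (hu1c i) (n := 1) (by norm_cast))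
            (show t ∈ Ioo 0 T₁ from ⟨ht.1, h'⟩) x
          exact h4.differentiableAt.hasDerivAt
        have hdχ : HasDerivAt χ (deriv χ t) t := (hχ.differentiable (by simp) t).hasDerivAt
        have e1 : deriv (fun s => ju χ s₀ u₁ v s x i) t = (-deriv χ t) * u₁ t x i +
            (1 - χ t) * deriv (fun s => u₁ s x i) t + (deriv χ t * v (t - s₀) x i +
            χ t * deriv (fun s => v s x i) (t - s₀)) := by
          have h5 : HasDerivAt (fun s => (1 - χ s) * u₁ s x i + χ s * v (s - s₀) x i)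
              ((-deriv χ t) * u₁ t x i + (1 - χ t) * deriv (fun s => u₁ s x i) t + (deriv χ t * v (t - s₀) x i +
            χ t * deriv (fun s => v s x i) (t - s₀))) t :=
            ((hdχ.const_sub 1).mul hdu).add (hdχ.mul (hdv t ⟨by linarith, ht.2⟩))
          exact h5.deriv
        have e2 : ∀ i j y, H459R3.NS.pd j (fun y => ju χ s₀ u₁ v t y i) y =
            (1 - χ t) * H459R3.NS.pd j (fun y => u₁ t y i) y + χ t * H459R3.NS.pd j (fun y => v (t - s₀) y i) y :=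
          fun i j y => pd_lin (hu1 t t1 i) (hv1 (t - s₀) t2 i) _ _ j y
        have e3 : ∀ j, H459R3.NS.pd j (H459R3.NS.pd j (fun y => ju χ s₀ u₁ v t y i)) x =
            (1 - χ t) * H459R3.NS.pd j (H459R3.NS.pd j (fun y => u₁ t y i)) x +
              χ t * H459R3.NS.pd j (H459R3.NS.pd j (fun y => v (t - s₀) y i)) x := by
          intro j
          have : H459R3.NS.pd j (fun y => ju χ s₀ u₁ v t y i) = fun y =>
              (1 - χ t) * H459R3.NS.pd j (fun y => u₁ t y i) y + χ t * H459R3.NS.pd j (fun y => v (t - s₀) y i) y :=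
            funext fun y => e2 i j y
          rw [this]
          exact pd_lin ((hu1 t t1 i).pd j) ((hv1 (t - s₀) t2 i).pd j) _ _ j x
        have e4 : H459R3.NS.pd i (jp χ s₀ p₁ r t) x = (1 - χ t) * H459R3.NS.pd i (p₁ t) x +
            χ t * H459R3.NS.pd i (r (t - s₀)) x := pd_lin (hp1 t t1) (hr1 (t - s₀) t2) _ _ i x
        have e5 : ∀ j, H459R3.NS.pd j (fun y => v (t - s₀) y i - u₁ t y i) x =
            H459R3.NS.pd j (fun y => v (t - s₀) y i) x - H459R3.NS.pd j (fun y => u₁ t y i) x := by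
          intro j
          have := pd_lin (hv1 (t - s₀) t2 i) (hu1 t t1 i) 1 (-1) j x
          rw [show (fun y => v (t - s₀) y i - u₁ t y i) = fun y => 1 * v (t - s₀) y i + -1 * u₁ t y i from
            funext fun y => by ring, this]
          ring
        unfold jf
        rw [e1, e4]
        simp only [e2, e3, e5]
        simp only [ju_apply]
        have e6 : ∑ j, ((1 - χ t) * u₁ t x j + χ t * v (t - s₀) x j) *
            ((1 - χ t) * H459R3.NS.pd j (fun y => u₁ t y i) x + χ t * H459R3.NS.pd j (fun y => v (t - s₀) y i) x) =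
            (1 - χ t) * ∑ j, u₁ t x j * H459R3.NS.pd j (fun y => u₁ t y i) x +
            χ t * ∑ j, v (t - s₀) x j * H459R3.NS.pd j (fun y => v (t - s₀) y i) x -
            χ t * (1 - χ t) * ∑ j, (v (t - s₀) x j - u₁ t x j) *
              (H459R3.NS.pd j (fun y => v (t - s₀) y i) x - H459R3.NS.pd j (fun y => u₁ t y i) x) := by
          rw [Finset.mul_sum, Finset.mul_sum, Finset.mul_sum, ← Finset.sum_add_distrib, ← Finset.sum_sub_distrib]
          exact Finset.sum_congr rfl fun j _ => by ring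
        have e7 : ∑ j, ((1 - χ t) * H459R3.NS.pd j (H459R3.NS.pd j (fun y => u₁ t y i)) x +
              χ t * H459R3.NS.pd j (H459R3.NS.pd j (fun y => v (t - s₀) y i)) x) =
            (1 - χ t) * ∑ j, H459R3.NS.pd j (H459R3.NS.pd j (fun y => u₁ t y i)) x +
              χ t * ∑ j, H459R3.NS.pd j (H459R3.NS.pd j (fun y => v (t - s₀) y i)) x := by
          rw [Finset.mul_sum, Finset.mul_sum, ← Finset.sum_add_distrib]
        rw [e6, e7]
        linear_combination (1 - χ t) * m1 + χ t * m2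
      · have hβt : β < t := by linarith
        have e1 : deriv (fun s => ju χ s₀ u₁ v s x i) t = deriv (fun s => v s x i) (t - s₀) := by
          have : (fun s => ju χ s₀ u₁ v s x i) =ᶠ[𝓝 t] fun s => v (s - s₀) x i := by
            filter_upwards [Ioi_mem_nhds hβt] with s hs
            have hs' : β < s := hs
            rw [z3 s hs'.le]
          rw [this.deriv_eq]
          exact (hdv t ⟨by linarith, ht.2⟩).deriv
        have e2 : deriv χ t = 0 := by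
          have : χ =ᶠ[𝓝 t] fun _ => 1 := by
            filter_upwards [Ioi_mem_nhds hβt] with s hs
            exact hc1 s (le_of_lt hs)
          rw [this.deriv_eq]; simp
        rw [e1, z3 t hβt.le, z3p t hβt.le, h2.momentum (t - s₀) ⟨by linarith, by linarith [ht.2]⟩ x i]
        unfold jf
        rw [e2, hc1 t hβt.le]
        ring

end Pool.Agent.K1H11.NS
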