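import Pool.Agent.K1H11.NS5.Steer

/-!
# Exact steering by a small force: the theorem
-/

open MeasureTheory Set Filter Topology
open scoped ENNReal NNReal ContDiff

namespace Pool.Agent.K1H11.NS

open H459R3.NS (cube SP Per IsSol fr)
open Pool.Agent.H356R3.NS (AdmissiblePeriodic R3 shellSum critNorm leiLin)

lemma fc_sub {v w : E3 → E3} (hv : ∀ i, SP fun x => v x i) (hw : ∀ i, SP fun x => w x i) :
    (fun k => Pool.Agent.H356R3.NS.fc (fun x i => v x i - w x i) k) =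
      fun k => Pool.Agent.H356R3.NS.fc v k - Pool.Agent.H356R3.NS.fc w k := by
  funext k i
  show Pool.Agent.H356R3.NS.fc (fun x i => v x i - w x i) k i =
    Pool.Agent.H356R3.NS.fc v k i - Pool.Agent.H356R3.NS.fc w k i
  rw [fc_eq_fr, fc_eq_fr, fc_eq_fr, fr_sub (hv i) (hw i)]

lemma GoodN.neg {N : (K → C3) → ℝ≥0∞} (h : GoodN N) (x : K → C3) : N (-x) ≤ N x := by
  have := h.smul (-1) x
  simpa using this

/-- Exact steering by a force of critical size `C ν`. -/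
theorem steer_main : ∃ C : ℝ, 0 < C ∧ ∀ (ν : ℝ), 0 < ν → ∀ (u₀ b₀ : E3 → E3),
    (∀ i, SP fun x => u₀ x i) → (∀ x, ∑ i, H459R3.NS.pd i (fun y => u₀ y i) x = 0) →
    (∀ i, SP fun x => b₀ x i) → (∀ x, ∑ i, H459R3.NS.pd i (fun y => b₀ y i) x = 0) →
    (∀ i, ∫ x in cube, b₀ x i = ∫ x in cube, u₀ x i) →
    ∀ ε : ℝ, 0 < ε → ∀ J : ℕ, 1 ≤ J →
    ∃ (f : ℝ → E3 → E3) (S T : ℝ), 0 < S ∧ S < T ∧ T ≤ ε ∧
      ContDiff ℝ ∞ (fun z : ℝ × E3 => f z.1 z.2) ∧
      (∀ t x j, f t (x + Pi.single j 1) = f t x) ∧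
      (∀ t, t ≤ 0 ∨ T ≤ t → f t = 0) ∧
      (∀ t i, ∫ x in cube, f t x i = 0) ∧
      ∫⁻ t, leiLin (fun k => Pool.Agent.H356R3.NS.fc (f t) k) ≤ ENNReal.ofReal (C * ν * Real.sqrt J) ∧
      (∀ r : ℝ, 1 ≤ r → ∫⁻ t, critNorm r (fun k => Pool.Agent.H356R3.NS.fc (f t) k) ≤
        ENNReal.ofReal (C * ν * (J : ℝ) ^ (1 / r - 1 / 2))) ∧
      (∀ (w : ℝ → E3 → E3) (q : ℝ → E3 → ℝ), AdmissiblePeriodic ν b₀ w q →
        ∃ (u : ℝ → E3 → E3) (p : ℝ → E3 → ℝ), AdmissibleForced ν f u₀ u p ∧ ∀ t, T ≤ t → u t = w (t - S)) ∧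
      (∀ (u : ℝ → E3 → E3) (p : ℝ → E3 → ℝ), AdmissibleForced ν f u₀ u p →
        ∃ (w : ℝ → E3 → E3) (q : ℝ → E3 → ℝ), AdmissiblePeriodic ν b₀ w q ∧ ∀ t, T ≤ t → u t = w (t - S)) := by
  obtain ⟨C, hC, hmain⟩ := pass_main
  have hCs := Cs_pos
  refine ⟨Cs * (C + 4) + 2, by positivity, fun ν hν u₀ b₀ hu hdu hb hdb hmean ε hε J hJ => ?_⟩
  have hJ1 : (1 : ℝ) ≤ J := by exact_mod_cast hJ
  have hJ0 : (0 : ℝ) < J := by linarith
  set σ : ℝ := ν * (J : ℝ) ^ (-(1 / 2) : ℝ) with hσ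
  have hσ0 : 0 < σ := by positivity
  set ε' := min σ ε with hε'
  have hε'0 : 0 < ε' := lt_min hσ0 hε
  obtain ⟨v₀, a1, a2, a3, -, a5, a6, -, δ, T₀, hδ, hT₀, hT₀ε, a8⟩ :=
    hmain ν hν u₀ b₀ hu hdu hb hdb hmean 1 1 ε' one_pos le_rfl one_pos hε'0 J 0 hJ
  obtain ⟨⟨z, qz, hz, hz0⟩, hpass⟩ := a8 v₀ a1 a2 a3 (by
    have : (fun k => Pool.Agent.H356R3.NS.fc v₀ k - Pool.Agent.H356R3.NS.fc v₀ k) = (0 : K → C3) := by
      funext k; simp
    rw [this, leiLin_goodN.zero]; exact zero_le)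
  obtain ⟨Tu, y, py, hTu, hy, hy0⟩ := exists_local hν hu hdu
  obtain ⟨Tb, b, pb, hTb, hbs, hb0⟩ := exists_local hν hb hdb
  set S := 3 * T₀ / 4 with hS
  have hS0 : 0 < S := by positivity
  have hST : S < T₀ := by rw [hS]; linarith
  have hclose := (hpass T₀ z qz hz hz0 S (by rw [hS]; linarith) hST.le hST).1
  -- the two differences
  set T1 := min Tu (T₀ / 2) with hT1
  set T2 := min Tb (T₀ - S) with hT2
  have hT1p : 0 < T1 := lt_min hTu (by positivity)
  have hT2p : 0 < T2 := lt_min hTb (by linarith)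
  have hT1u : T1 ≤ Tu := min_le_left _ _
  have hT1T : T1 ≤ T₀ / 2 := min_le_right _ _
  have hT2b : T2 ≤ Tb := min_le_left _ _
  have hT2T : T2 ≤ T₀ - S := min_le_right _ _
  have k1 : (0 : ℝ) + T1 ≤ Tu := by linarith
  have k2 : T1 ≤ T₀ := by linarith
  have k3 : S + T2 ≤ T₀ := by linarith
  have hA1 : SFV T1 (df 0 y z) := SFV_df hy hz le_rfl k1 k2
  have hA2 : SFV T2 (df S z b) := SFV_df hz hbs hS0.le k3 hT2b
  obtain ⟨τ₁, p1, p2, p3⟩ := ga_bound hT1p hA1 hσ0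
  obtain ⟨τ₂, q1, q2, q3⟩ := ga_bound hT2p hA2 hσ0
  have hτ1S : τ₁ < S := by rw [hS]; linarith
  set f : ℝ → E3 → E3 := fun t x i => ga τ₁ (df 0 y z) t x i + ga τ₂ (df S z b) (t - S) x i with hf
  have hfsm : ContDiff ℝ ∞ fun z : ℝ × E3 => f z.1 z.2 := by
    have s1 := ga_smooth p1 p2 hA1
    have s2 := ga_smooth q1 q2 hA2
    have hA : ContDiff ℝ ∞ fun z : ℝ × E3 => ((z.1 - S, z.2) : ℝ × E3) :=
      (contDiff_fst.sub contDiff_const).prodMk contDiff_snd
    exact s1.add (s2.comp hA)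
  have hleft : ∀ t ≤ S, f t = ga τ₁ (df 0 y z) t := by
    intro t ht
    have e : ga τ₂ (df S z b) (t - S) = 0 := ga_zero q1 (fun h => by
      have := h.1
      linarith) _
    funext x i
    simp only [hf, e]
    simp
  have hright : ∀ t, S ≤ t → f t = ga τ₂ (df S z b) (t - S) := by
    intro t ht
    have e : ga τ₁ (df 0 y z) t = 0 := ga_zero p1 (fun h => by
      have := h.2
      linarith) _
    funext x i
    simp only [hf, e]
    simp
  have hf0 : ∀ t, t ≤ 0 ∨ S + τ₂ ≤ t → f t = 0 := by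
    rintro t (ht | ht)
    · rw [hleft t (by linarith)]
      exact ga_zero p1 (fun h => by have := h.1; linarith) _
    · rw [hright t (by linarith)]
      exact ga_zero q1 (fun h => by have := h.2; linarith) _
  -- norms
  have hN : ∀ N : (K → C3) → ℝ≥0∞, GoodN N → ∀ X : ℝ, (J : ℝ) ^ (-(1 / 2) : ℝ) ≤ X →
      N (fun k => Pool.Agent.H356R3.NS.fc v₀ k - Pool.Agent.H356R3.NS.fc u₀ k) ≤ ENNReal.ofReal (C * ν * X) →
      ∫⁻ t, N (fun k => Pool.Agent.H356R3.NS.fc (f t) k) ≤ ENNReal.ofReal ((Cs * (C + 4) + 2) * ν * X) := by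
    intro N hN X hX hW
    have hX0 : 0 < X := lt_of_lt_of_le (by positivity) hX
    have hσX : σ ≤ ν * X := mul_le_mul_of_nonneg_left hX hν.le
    have i1 := p3 τ₁ p1 le_rfl N hN
    have i2 := q3 τ₂ q1 le_rfl N hN
    have e1 : (fun k => Pool.Agent.H356R3.NS.fc (df 0 y z 0) k) =
        fun k => Pool.Agent.H356R3.NS.fc v₀ k - Pool.Agent.H356R3.NS.fc u₀ k := by
      rw [← fc_sub a1 hu]
      have : df 0 y z 0 = fun x i => v₀ x i - u₀ x i := by
        funext x i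
        unfold df
        rw [hz0, add_zero, hy0]
      rw [this]
    have e2 : (fun k => Pool.Agent.H356R3.NS.fc (df S z b 0) k) =
        -(fun k => Pool.Agent.H356R3.NS.fc (z S) k - Pool.Agent.H356R3.NS.fc b₀ k) := by
      have hzS : ∀ i, SP fun x => z S x i := fun i => hz.sp ⟨hS0.le, hST⟩ i
      have h3 : df S z b 0 = fun x i => b₀ x i - z S x i := by
        funext x i
        unfold df
        rw [hb0, add_zero]
      rw [h3, fc_sub hb hzS]
      funext k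
      simp
    have b2 : N (fun k => Pool.Agent.H356R3.NS.fc (df S z b 0) k) ≤ ENNReal.ofReal (2 * σ) := by
      rw [e2]
      refine (hN.neg _).trans ((hN.le _).trans ((mul_le_mul' le_rfl hclose).trans ?_))
      rw [show (2 : ℝ≥0∞) = ENNReal.ofReal 2 by simp, ← ENNReal.ofReal_mul (by norm_num)]
      exact ENNReal.ofReal_le_ofReal (mul_le_mul_of_nonneg_left (min_le_left _ _) (by norm_num))
    rw [e1] at i1
    have m1 : ∫⁻ t in Iic S, N (fun k => Pool.Agent.H356R3.NS.fc (f t) k) ≤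
        ENNReal.ofReal (Cs * (C * ν * X + σ) + σ) := by
      calc _ ≤ ∫⁻ t in Iic S, N (fun k => Pool.Agent.H356R3.NS.fc (ga τ₁ (df 0 y z) t) k) :=
            setLIntegral_mono' measurableSet_Iic fun t ht => by rw [hleft t ht]
        _ ≤ ∫⁻ t, N (fun k => Pool.Agent.H356R3.NS.fc (ga τ₁ (df 0 y z) t) k) := setLIntegral_le_lintegral _ _
        _ ≤ _ := i1
        _ ≤ ENNReal.ofReal Cs * (ENNReal.ofReal (C * ν * X) + ENNReal.ofReal σ) + ENNReal.ofReal σ := by gcongr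
        _ = _ := by
            rw [← ENNReal.ofReal_add (by positivity) hσ0.le, ← ENNReal.ofReal_mul hCs.le,
              ← ENNReal.ofReal_add (by positivity) hσ0.le]
    have m2 : ∫⁻ t in (Iic S)ᶜ, N (fun k => Pool.Agent.H356R3.NS.fc (f t) k) ≤
        ENNReal.ofReal (Cs * (2 * σ + σ) + σ) := by
      calc _ ≤ ∫⁻ t in (Iic S)ᶜ, N (fun k => Pool.Agent.H356R3.NS.fc (ga τ₂ (df S z b) (t - S)) k) :=
            setLIntegral_mono' measurableSet_Iic.compl fun t ht => by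
              rw [hright t (le_of_lt (not_le.1 ht))]
        _ ≤ ∫⁻ t, N (fun k => Pool.Agent.H356R3.NS.fc (ga τ₂ (df S z b) (t - S)) k) :=
            setLIntegral_le_lintegral _ _
        _ = ∫⁻ t, N (fun k => Pool.Agent.H356R3.NS.fc (ga τ₂ (df S z b) t) k) :=
            lintegral_sub_right_eq_self (fun t => N (fun k => Pool.Agent.H356R3.NS.fc (ga τ₂ (df S z b) t) k)) S
        _ ≤ _ := i2
        _ ≤ ENNReal.ofReal Cs * (ENNReal.ofReal (2 * σ) + ENNReal.ofReal σ) + ENNReal.ofReal σ := by gcongr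
        _ = _ := by
            rw [← ENNReal.ofReal_add (by positivity) hσ0.le, ← ENNReal.ofReal_mul hCs.le,
              ← ENNReal.ofReal_add (by positivity) hσ0.le]
    rw [← lintegral_add_compl _ (measurableSet_Iic (a := S))]
    refine (add_le_add m1 m2).trans ?_
    rw [← ENNReal.ofReal_add (by positivity) (by positivity)]
    apply ENNReal.ofReal_le_ofReal
    have h5 : Cs * σ ≤ Cs * (ν * X) := mul_le_mul_of_nonneg_left hσX hCs.le
    nlinarith
  refine ⟨f, S, S + τ₂, hS0, by linarith, by linarith [min_le_right σ ε], hfsm, ?_, hf0, ?_, ?_, ?_, ?_, ?_⟩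
  · intro t x j
    rcases le_total t S with h | h
    · rw [hleft t h]; exact ga_per p1 p2 hA1 t x j
    · rw [hright t h]; exact ga_per q1 q2 hA2 _ x j
  · intro t i
    rcases le_total t S with h | h
    · rw [hleft t h]
      exact int_ga p1 p2 hA1 (fun t ht x => df_div hy hz le_rfl k1 k2 t ht x)
        (fun t ht i => df_mean hy hz le_rfl k1 k2 (fun i => by rw [hz0, hy0]; exact a3 i) t ht i) t i
    · rw [hright t h]
      refine int_ga q1 q2 hA2 (fun t ht x => df_div hz hbs hS0.le k3 hT2b t ht x)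
        (fun t ht i => df_mean hz hbs hS0.le k3 hT2b (fun i => ?_) t ht i) _ i
      rw [hb0, hz0, hmean i, a3 i]
  · refine hN leiLin leiLin_goodN _ ?_ (by simpa using a5)
    rw [Real.sqrt_eq_rpow]
    exact Real.rpow_le_rpow_of_exponent_le hJ1 (by norm_num)
  · intro r hr
    refine hN (critNorm r) (critNorm_goodN hr) _ ?_ (by simpa using a6 r hr)
    apply Real.rpow_le_rpow_of_exponent_le hJ1
    have : 0 < 1 / r := by positivity
    linarith
  · intro w q hw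
    have hwb : ∀ t ∈ Ico 0 Tb, w t = b t := fun t ht =>
      IsSolF.unique hν.le (IsSolF.of (adm_isSol hw Tb)) (IsSolF.of hbs) (by rw [hw.initial, hb0]) ht
    have hU : ∀ L : ℝ, 0 < L → IsSolF ν L f
        (ju (fun t => sw τ₂ (t - S)) S (ju (fun t => sw τ₁ (t - 0)) 0 y z) w)
        (jp (fun t => sw τ₂ (t - S)) S (jp (fun t => sw τ₁ (t - 0)) 0 py qz) q) := fun L hL =>
      (two_switches hy hz (adm_isSol hw (L + T2)) p1 (by linarith) hτ1S q1 (by linarith) (by linarith)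
        (by linarith) hwb).mono (by linarith)
    have hadm := adm_forced hfsm hU
    have e0 : ju (fun t => sw τ₂ (t - S)) S (ju (fun t => sw τ₁ (t - 0)) 0 y z) w 0 = u₀ := by
      funext x
      have c1 : sw τ₂ (0 - S) = 0 := sw_zero q1 (by linarith)
      have c2 : sw τ₁ (0 - 0) = 0 := sw_zero p1 (by simp; positivity)
      show (1 - sw τ₂ (0 - S)) • ((1 - sw τ₁ (0 - 0)) • y 0 x + sw τ₁ (0 - 0) • z (0 - 0) x) +
        sw τ₂ (0 - S) • w (0 - S) x = u₀ x
      rw [c1, c2, hy0]; simp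
    rw [e0] at hadm
    refine ⟨_, _, hadm, fun t ht => ?_⟩
    funext x
    have c1 : sw τ₂ (t - S) = 1 := sw_one q1 (by linarith)
    show (1 - sw τ₂ (t - S)) • ju (fun t => sw τ₁ (t - 0)) 0 y z t x + sw τ₂ (t - S) • w (t - S) x = _
    rw [c1]; simp
  · intro u p hup
    have hU := two_switches hy hz hbs p1 (by linarith) hτ1S q1 (by linarith) (by linarith)
      (by linarith) (fun t _ => rfl) (Tb := Tb)
    have hiso := hup.isSolF
    have e0 : ju (fun t => sw τ₂ (t - S)) S (ju (fun t => sw τ₁ (t - 0)) 0 y z) b 0 = u₀ := by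
      funext x
      have c1 : sw τ₂ (0 - S) = 0 := sw_zero q1 (by linarith)
      have c2 : sw τ₁ (0 - 0) = 0 := sw_zero p1 (by simp; positivity)
      show (1 - sw τ₂ (0 - S)) • ((1 - sw τ₁ (0 - 0)) • y 0 x + sw τ₁ (0 - 0) • z (0 - 0) x) +
        sw τ₂ (0 - S) • b (0 - S) x = u₀ x
      rw [c1, c2, hy0]; simp
    have huni : ∀ t ∈ Ico 0 (S + Tb), u t = ju (fun t => sw τ₂ (t - S)) S (ju (fun t => sw τ₁ (t - 0)) 0 y z) b t :=
      fun t ht => IsSolF.unique hν.le (hiso (S + Tb)) hU (by rw [hup.initial, e0]) ht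
    have hub : ∀ s ∈ Ico τ₂ Tb, u (S + s) = b s := by
      intro s hs
      rw [huni (S + s) ⟨by linarith [hs.1], by linarith [hs.2]⟩]
      funext x
      have c0 : S + s - S = s := by ring
      have c1 : sw τ₂ s = 1 := sw_one q1 (by linarith [hs.1])
      show (1 - sw τ₂ (S + s - S)) • ju (fun t => sw τ₁ (t - 0)) 0 y z (S + s) x +
        sw τ₂ (S + s - S) • b (S + s - S) x = _
      rw [c0, c1]; simp
    obtain ⟨w, q, hw, hw2⟩ := continue_back hbs hiso q1 (by linarith) rfl (by linarith)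
      (fun t ht => hf0 t (Or.inr ht)) hub
    rw [hb0] at hw
    exact ⟨w, q, hw, hw2⟩

end Pool.Agent.K1H11.NS
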