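import Pool.Agent.K1H11.NS5.Uniq

/-!
# Norms of the force of a join
-/

open MeasureTheory Set Filter Topology
open scoped ENNReal NNReal ContDiff

namespace Pool.Agent.K1H11.NS

open H459R3.NS (cube SP Per IsSol fr)
open Pool.Agent.H356R3.NS (shellSum critNorm leiLin)

/-- a seminorm which is at most twice the Lei-Lin norm -/
structure GoodN (N : (K → C3) → ℝ≥0∞) : Prop where
  add : ∀ x y : K → C3, N (x + y) ≤ N x + N y
  smul : ∀ (c : ℝ) (x : K → C3), N (c • x) ≤ ENNReal.ofReal |c| * N x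
  le : ∀ x : K → C3, N x ≤ 2 * leiLin x

lemma leiLin_add (x y : K → C3) : leiLin (x + y) ≤ leiLin x + leiLin y := by
  unfold leiLin
  rw [← ENNReal.tsum_add]
  refine ENNReal.tsum_le_tsum fun k => ?_
  by_cases hk : k = 0
  · simp [hk]
  · rw [if_neg hk, if_neg hk, if_neg hk, ← ENNReal.add_div]
    exact ENNReal.div_le_div_right (enorm_add_le _ _) _

lemma leiLin_smul (c : ℝ) (x : K → C3) : leiLin (c • x) ≤ ENNReal.ofReal |c| * leiLin x := by
  unfold leiLin
  rw [← ENNReal.tsum_mul_left]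
  refine ENNReal.tsum_le_tsum fun k => ?_
  by_cases hk : k = 0
  · simp [hk]
  · rw [if_neg hk, if_neg hk, Pi.smul_apply, enorm_smul, mul_div_assoc, ← ofReal_norm, Real.norm_eq_abs]

lemma leiLin_goodN : GoodN leiLin :=
  ⟨leiLin_add, leiLin_smul, fun x => by
    calc leiLin x = 1 * leiLin x := (one_mul _).symm
      _ ≤ 2 * leiLin x := mul_le_mul' (by norm_num) le_rfl⟩

lemma shellSum_add (x y : K → C3) (j : ℕ) : shellSum (x + y) j ≤ shellSum x j + shellSum y j := by
  rw [shellSum_eq, shellSum_eq, shellSum_eq, ← ENNReal.tsum_add]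
  refine ENNReal.tsum_le_tsum fun k => ?_
  split_ifs
  · exact enorm_add_le _ _
  · simp

lemma shellSum_smul (c : ℝ) (x : K → C3) (j : ℕ) : shellSum (c • x) j = ENNReal.ofReal |c| * shellSum x j := by
  rw [shellSum_eq, shellSum_eq, ← ENNReal.tsum_mul_left]
  refine tsum_congr fun k => ?_
  split_ifs
  · rw [Pi.smul_apply, enorm_smul, ← ofReal_norm, Real.norm_eq_abs]
  · simp

lemma critNorm_goodN {r : ℝ} (hr : 1 ≤ r) : GoodN (critNorm r) := by
  have hr0 : 0 < r := by linarith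
  refine ⟨fun x y => ?_, fun c x => ?_, fun x => ?_⟩
  · unfold critNorm
    have h := ENNReal.lintegral_Lp_add_le (μ := (Measure.count : Measure ℕ)) (p := r)
      (f := fun j => shellSum x j / 2 ^ j) (g := fun j => shellSum y j / 2 ^ j)
      (measurable_of_countable _).aemeasurable (measurable_of_countable _).aemeasurable hr
    rw [lintegral_count, lintegral_count, lintegral_count] at h
    refine le_trans (ENNReal.rpow_le_rpow (ENNReal.tsum_le_tsum fun j => ?_) (by positivity)) h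
    refine ENNReal.rpow_le_rpow ?_ hr0.le
    show _ ≤ shellSum x j / 2 ^ j + shellSum y j / 2 ^ j
    rw [← ENNReal.add_div]
    exact ENNReal.div_le_div_right (shellSum_add x y j) _
  · unfold critNorm
    have : ∀ j, (shellSum (c • x) j / 2 ^ j) ^ r = ENNReal.ofReal |c| ^ r * (shellSum x j / 2 ^ j) ^ r := by
      intro j
      rw [shellSum_smul, mul_div_assoc, ENNReal.mul_rpow_of_nonneg _ _ hr0.le]
    simp_rw [this]
    rw [ENNReal.tsum_mul_left, ENNReal.mul_rpow_of_nonneg _ _ (by positivity), ← ENNReal.rpow_mul,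
      mul_one_div_cancel hr0.ne', ENNReal.rpow_one]
  · unfold critNorm
    have h1 : ∑' j, (shellSum x j / 2 ^ j) ^ r ≤ (∑' j, shellSum x j / 2 ^ j) ^ r := tsum_rpow_le _ hr
    have h2 : ∑' j, shellSum x j / 2 ^ j ≤ 2 * leiLin x := by
      classical
      have h3 := shells_le x (fun k => k ≠ 0) (∅ : Set ℕ) (fun j _ k hk hk0 => by
        have := shell_le hk
        rw [hk0, nk_zero] at this
        have h4 : (0 : ℝ) < 2 ^ j := by positivity
        linarith)
      simp only [mem_empty_iff_false, if_false] at h3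
      refine h3.trans (mul_le_mul' le_rfl ?_)
      unfold leiLin
      refine ENNReal.tsum_le_tsum fun k => ?_
      by_cases hk : k = 0
      · simp [hk]
      · rw [if_neg hk, if_pos hk, ENNReal.ofReal_div_of_pos (nk_pos hk), ofReal_norm]
        exact le_rfl
    calc (∑' j, (shellSum x j / 2 ^ j) ^ r) ^ (1 / r) ≤ ((∑' j, shellSum x j / 2 ^ j) ^ r) ^ (1 / r) :=
          ENNReal.rpow_le_rpow h1 (by positivity)
      _ = ∑' j, shellSum x j / 2 ^ j := by
          rw [← ENNReal.rpow_mul, mul_one_div_cancel hr0.ne', ENNReal.rpow_one]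
      _ ≤ _ := h2

lemma GoodN.zero {N : (K → C3) → ℝ≥0∞} (h : GoodN N) : N 0 = 0 := by
  have := h.smul 0 0
  simpa using this

lemma LL_le_tsum {x : K → C3} (hx : SN x) : leiLin x ≤ ENNReal.ofReal (∑' k, ‖x k‖) := by
  rw [leiLin_eq hx]
  apply ENNReal.ofReal_le_ofReal
  refine (summ_div_nk hx).tsum_le_tsum (fun k => ?_) hx
  by_cases hk : k = 0
  · subst hk; rw [nk_zero, div_zero]; exact norm_nonneg _
  · exact div_le_self (norm_nonneg _) (one_le_nk hk)

/-- vector fields which are smooth in space-time -/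
def SFV (T : ℝ) (a : ℝ → E3 → E3) : Prop := ∀ i, Ev.SF T fun s y => a s y i

lemma summ_wg : Summable Ev.wg := H459R3.NS.summable_K3

lemma norm_fc_le {v : E3 → E3} {C : ℝ} {k : K} (h : ∀ i, ‖fr (fun x => v x i) k‖ ≤ C) (hC : 0 ≤ C) :
    ‖Pool.Agent.H356R3.NS.fc v k‖ ≤ C := by
  rw [pi_norm_le_iff_of_nonneg hC]
  intro i
  rw [fc_eq_fr]
  exact h i

lemma SFV.decay {T : ℝ} {a : ℝ → E3 → E3} (h : SFV T a) {b : ℝ} (hb : b < T) :
    ∃ C, 0 ≤ C ∧ ∀ t ∈ Icc 0 b, ∀ k, ‖Pool.Agent.H356R3.NS.fc (a t) k‖ ≤ C * Ev.wg k := by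
  choose C hC hC' using fun i => (h i).decay hb 0
  refine ⟨∑ i, C i, Finset.sum_nonneg fun i _ => hC i, fun t ht k => ?_⟩
  refine norm_fc_le (fun i => ?_) (mul_nonneg (Finset.sum_nonneg fun i _ => hC i) (Ev.wg_nonneg k))
  have h1 := hC' i t ht k
  rw [pow_zero, one_mul] at h1
  exact h1.trans (mul_le_mul_of_nonneg_right (Finset.single_le_sum (fun i _ => hC i) (Finset.mem_univ i))
    (Ev.wg_nonneg k))

lemma SFV.sn {T : ℝ} {a : ℝ → E3 → E3} (h : SFV T a) {t : ℝ} (ht : t ∈ Ico 0 T) :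
    SN fun k => Pool.Agent.H356R3.NS.fc (a t) k := by
  obtain ⟨b, hb1, hb2⟩ := exists_between ht.2
  obtain ⟨C, hC, hC'⟩ := h.decay hb2
  exact (summ_wg.mul_left C).of_nonneg_of_le (fun k => norm_nonneg _) fun k => hC' t ⟨ht.1, hb1.le⟩ k

lemma SFV.LL_bound {T : ℝ} {a : ℝ → E3 → E3} (h : SFV T a) {b : ℝ} (hb : b < T) :
    ∃ B : ℝ, 0 ≤ B ∧ ∀ t ∈ Icc 0 b, leiLin (fun k => Pool.Agent.H356R3.NS.fc (a t) k) ≤ ENNReal.ofReal B := by
  obtain ⟨C, hC, hC'⟩ := h.decay hb
  refine ⟨C * ∑' k, Ev.wg k, mul_nonneg hC (tsum_nonneg Ev.wg_nonneg), fun t ht => ?_⟩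
  have hs : SN fun k => Pool.Agent.H356R3.NS.fc (a t) k :=
    (summ_wg.mul_left C).of_nonneg_of_le (fun k => norm_nonneg _) fun k => hC' t ht k
  refine (LL_le_tsum hs).trans (ENNReal.ofReal_le_ofReal ?_)
  rw [← tsum_mul_left]
  exact hs.tsum_le_tsum (fun k => hC' t ht k) (summ_wg.mul_left C)

/-- Continuity at time zero in the Lei-Lin norm. -/
lemma SFV.LL_cont {T : ℝ} (hT : 0 < T) {a : ℝ → E3 → E3} (h : SFV T a) {σ : ℝ} (hσ : 0 < σ) :
    ∃ τ : ℝ, 0 < τ ∧ τ < T ∧ ∀ t ∈ Icc 0 τ, leiLin ((fun k => Pool.Agent.H356R3.NS.fc (a t) k) -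
      fun k => Pool.Agent.H356R3.NS.fc (a 0) k) ≤ ENNReal.ofReal σ := by
  obtain ⟨C, hC, hC'⟩ := h.decay (b := T / 2) (by linarith)
  set F : ℝ → K → ℝ := fun t k => ‖Pool.Agent.H356R3.NS.fc (a t) k - Pool.Agent.H356R3.NS.fc (a 0) k‖ with hF
  have h0 : (0 : ℝ) ∈ Icc 0 (T / 2) := ⟨le_rfl, by linarith⟩
  have hFb : ∀ t ∈ Icc 0 (T / 2), ∀ k, F t k ≤ 2 * C * Ev.wg k := fun t ht k => by
    refine (norm_sub_le _ _).trans ?_
    have := hC' t ht k
    have := hC' 0 h0 k
    linarith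
  have hlim : Tendsto (fun t => ∑' k, F t k) (𝓝[Icc 0 (T / 2)] 0) (𝓝 0) := by
    have h1 := tendsto_tsum_of_dominated_convergence (f := F) (g := fun _ => (0 : ℝ)) (𝓕 := 𝓝[Icc 0 (T / 2)] 0)
      (summ_wg.mul_left (2 * C)) (fun k => by
        have hc : ContinuousWithinAt (fun t => Pool.Agent.H356R3.NS.fc (a t) k) (Icc 0 (T / 2)) 0 := by
          rw [continuousWithinAt_pi]
          intro i
          simp_rw [fc_eq_fr]
          exact (((h i).continuousOn_fr k).mono fun s hs => ⟨hs.1, by linarith [hs.2]⟩) 0 h0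
        have h2 := (hc.sub (continuousWithinAt_const (b := Pool.Agent.H356R3.NS.fc (a 0) k))).norm
        have h3 : Tendsto (F · k) (𝓝[Icc 0 (T / 2)] 0) (𝓝 (F 0 k)) := h2
        have e : F 0 k = 0 := by simp [hF]
        rwa [e] at h3)
      (by
        filter_upwards [self_mem_nhdsWithin] with t ht k
        rw [Real.norm_of_nonneg (norm_nonneg _)]
        exact hFb t ht k)
    rwa [tsum_zero] at h1
  have hev := hlim.eventually (gt_mem_nhds hσ)
  rw [eventually_nhdsWithin_iff, Metric.eventually_nhds_iff] at hev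
  obtain ⟨ρ, hρ, hρ2⟩ := hev
  refine ⟨min (ρ / 2) (T / 2), lt_min (by positivity) (by positivity), (min_le_right _ _).trans_lt (by linarith),
    fun t ht => ?_⟩
  have ht2 : t ∈ Icc 0 (T / 2) := ⟨ht.1, ht.2.trans (min_le_right _ _)⟩
  have htρ : dist t 0 < ρ := by
    rw [Real.dist_eq, sub_zero, abs_of_nonneg ht.1]
    have := ht.2.trans (min_le_left _ _)
    linarith
  have h1 := hρ2 htρ ht2
  have hs : SN ((fun k => Pool.Agent.H356R3.NS.fc (a t) k) - fun k => Pool.Agent.H356R3.NS.fc (a 0) k) :=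
    (h.sn ⟨ht2.1, by linarith [ht2.2]⟩).sub (h.sn ⟨le_rfl, hT⟩)
  exact (LL_le_tsum hs).trans (ENNReal.ofReal_le_ofReal h1.le)

/-! ### The switch function -/

/-- a smooth function of time which changes from `0` to `1` in `[τ/3, 2τ/3]` -/
noncomputable def sw (τ t : ℝ) : ℝ := Real.smoothTransition (3 * t / τ - 1)

lemma sw_smooth (τ : ℝ) : ContDiff ℝ ∞ (sw τ) := by
  have h : ContDiff ℝ ∞ Real.smoothTransition := Real.smoothTransition.contDiff (n := ⊤)
  exact h.comp (((contDiff_const.mul contDiff_id).div_const _).sub contDiff_const)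

lemma sw_zero {τ t : ℝ} (hτ : 0 < τ) (ht : t ≤ τ / 3) : sw τ t = 0 := by
  unfold sw
  apply Real.smoothTransition.zero_of_nonpos
  rw [sub_nonpos, div_le_one hτ]; linarith

lemma sw_one {τ t : ℝ} (hτ : 0 < τ) (ht : 2 * τ / 3 ≤ t) : sw τ t = 1 := by
  unfold sw
  apply Real.smoothTransition.one_of_one_le
  rw [le_sub_iff_add_le, le_div_iff₀ hτ]; linarith

lemma sw_nonneg (τ t : ℝ) : 0 ≤ sw τ t := Real.smoothTransition.nonneg _

lemma sw_le_one (τ t : ℝ) : sw τ t ≤ 1 := Real.smoothTransition.le_one _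

lemma exists_cs : ∃ Cs : ℝ, 0 < Cs ∧ ∀ t, |deriv Real.smoothTransition t| ≤ Cs := by
  have h : ContDiff ℝ 1 Real.smoothTransition := Real.smoothTransition.contDiff (n := 1)
  have hc : Continuous (deriv Real.smoothTransition) := h.continuous_deriv le_rfl
  obtain ⟨C, hC⟩ := isCompact_Icc.exists_bound_of_continuousOn (hc.continuousOn (s := Icc (-1 : ℝ) 2))
  refine ⟨max C 1, lt_of_lt_of_le one_pos (le_max_right _ _), fun t => ?_⟩
  by_cases ht : t ∈ Icc (-1 : ℝ) 2
  · exact (hC t ht).trans (le_max_left _ _)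
  · have h0 : deriv Real.smoothTransition t = 0 := by
      rw [mem_Icc, not_and_or, not_le, not_le] at ht
      rcases ht with ht | ht
      · have : Real.smoothTransition =ᶠ[𝓝 t] fun _ => 0 := by
          filter_upwards [Iio_mem_nhds ht] with s hs
          have hs' : s < -1 := hs
          exact Real.smoothTransition.zero_of_nonpos (by linarith)
        rw [this.deriv_eq]; simp
      · have : Real.smoothTransition =ᶠ[𝓝 t] fun _ => 1 := by
          filter_upwards [Ioi_mem_nhds ht] with s hs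
          have hs' : 2 < s := hs
          exact Real.smoothTransition.one_of_one_le (by linarith)
        rw [this.deriv_eq]; simp
    rw [h0, abs_zero]
    exact zero_le_one.trans (le_max_right _ _)

/-- an absolute bound for the derivative of the transition function -/
noncomputable def Cs : ℝ := exists_cs.choose

lemma Cs_pos : 0 < Cs := exists_cs.choose_spec.1

lemma Cs_le (t : ℝ) : |deriv Real.smoothTransition t| ≤ Cs := exists_cs.choose_spec.2 t

lemma sw_deriv {τ : ℝ} (hτ : 0 < τ) (t : ℝ) : |deriv (sw τ) t| ≤ 3 * Cs / τ := by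
  have h : ContDiff ℝ 1 Real.smoothTransition := Real.smoothTransition.contDiff (n := 1)
  have h1 : HasDerivAt (fun t : ℝ => 3 * t / τ - 1) (3 / τ) t := by
    have := (((hasDerivAt_id t).const_mul 3).div_const τ).sub_const 1
    simpa using this
  have h2 : HasDerivAt (sw τ) (deriv Real.smoothTransition (3 * t / τ - 1) * (3 / τ)) t := by
    have h3 : HasDerivAt Real.smoothTransition (deriv Real.smoothTransition (3 * t / τ - 1)) (3 * t / τ - 1) :=
      (h.differentiable one_ne_zero _).hasDerivAt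
    exact h3.comp t h1
  rw [h2.deriv, abs_mul, abs_of_pos (show (0 : ℝ) < 3 / τ by positivity)]
  calc |deriv Real.smoothTransition (3 * t / τ - 1)| * (3 / τ) ≤ Cs * (3 / τ) :=
        mul_le_mul_of_nonneg_right (Cs_le _) (by positivity)
    _ = _ := by ring

lemma sw_deriv_zero {τ t : ℝ} (hτ : 0 < τ) (ht : t ∉ Icc (τ / 3) (2 * τ / 3)) : deriv (sw τ) t = 0 := by
  rw [mem_Icc, not_and_or, not_le, not_le] at ht
  rcases ht with ht | ht
  · have : sw τ =ᶠ[𝓝 t] fun _ => 0 := by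
      filter_upwards [Iio_mem_nhds ht] with s hs
      exact sw_zero hτ (le_of_lt hs)
    rw [this.deriv_eq]; simp
  · have : sw τ =ᶠ[𝓝 t] fun _ => 1 := by
      filter_upwards [Ioi_mem_nhds ht] with s hs
      exact sw_one hτ (le_of_lt hs)
    rw [this.deriv_eq]; simp

lemma sw_prod_zero {τ t : ℝ} (hτ : 0 < τ) (ht : t ∉ Icc (τ / 3) (2 * τ / 3)) : sw τ t * (1 - sw τ t) = 0 := by
  rw [mem_Icc, not_and_or, not_le, not_le] at ht
  rcases ht with ht | ht
  · rw [sw_zero hτ ht.le]; ring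
  · rw [sw_one hτ ht.le]; ring

/-- the force which switches on the field `a` -/
noncomputable def ga (τ : ℝ) (a : ℝ → E3 → E3) (t : ℝ) (x : E3) (i : Fin 3) : ℝ :=
  deriv (sw τ) t * a t x i - sw τ t * (1 - sw τ t) * ∑ j, a t x j * H459R3.NS.pd j (fun y => a t y i) x

lemma ga_zero {τ t : ℝ} (hτ : 0 < τ) (ht : t ∉ Icc (τ / 3) (2 * τ / 3)) (a : ℝ → E3 → E3) : ga τ a t = 0 := by
  funext x i
  unfold ga
  rw [sw_deriv_zero hτ ht, sw_prod_zero hτ ht]
  simp

/-- the nonlinear term -/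
noncomputable def nl (a : ℝ → E3 → E3) (t : ℝ) (x : E3) (i : Fin 3) : ℝ :=
  ∑ j, a t x j * H459R3.NS.pd j (fun y => a t y i) x

lemma EvSF_mul {T : ℝ} {F G : ℝ → E3 → ℝ} (hF : Ev.SF T F) (hG : Ev.SF T G) : Ev.SF T fun t x => F t x * G t x :=
  ⟨hF.smooth.mul hG.smooth, fun t ht j x => by
    show F t _ * G t _ = _
    rw [hF.per t ht j x, hG.per t ht j x]⟩

lemma SF_sum3 {T : ℝ} {F : Fin 3 → ℝ → E3 → ℝ} (hF : ∀ i, Ev.SF T (F i)) : Ev.SF T fun t x => ∑ i, F i t x :=
  ⟨ContDiffOn.sum fun i _ => (hF i).smooth, fun t ht j x => by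
    show ∑ i, F i t _ = _
    exact Finset.sum_congr rfl fun i _ => (hF i).per t ht j x⟩

lemma SFV.nl {T : ℝ} {a : ℝ → E3 → E3} (h : SFV T a) : SFV T (nl a) := fun i =>
  SF_sum3 fun j => EvSF_mul (h j) ((h i).pd j)

lemma fc_ga {T τ : ℝ} {a : ℝ → E3 → E3} (h : SFV T a) {t : ℝ} (ht : t ∈ Ico 0 T) :
    (fun k => Pool.Agent.H356R3.NS.fc (ga τ a t) k) = deriv (sw τ) t • (fun k => Pool.Agent.H356R3.NS.fc (a t) k) +
      (-(sw τ t * (1 - sw τ t))) • (fun k => Pool.Agent.H356R3.NS.fc (nl a t) k) := by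
  funext k i
  show Pool.Agent.H356R3.NS.fc (ga τ a t) k i = (deriv (sw τ) t • Pool.Agent.H356R3.NS.fc (a t) k) i +
    (-(sw τ t * (1 - sw τ t)) • Pool.Agent.H356R3.NS.fc (nl a t) k) i
  rw [Pi.smul_apply, Pi.smul_apply, fc_eq_fr, fc_eq_fr, fc_eq_fr, Complex.real_smul, Complex.real_smul]
  have e : (fun x => ga τ a t x i) = fun x => deriv (sw τ) t * a t x i + (-(sw τ t * (1 - sw τ t))) * nl a t x i := by
    funext x
    unfold ga
    show _ = _ + -(sw τ t * (1 - sw τ t)) * (∑ j, a t x j * H459R3.NS.pd j (fun y => a t y i) x)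
    ring
  rw [e, fr_add (SP.cmul ((h i).sp ht) _) (SP.cmul ((h.nl i).sp ht) _), fr_cmul, fr_cmul]

/-- The size of the switching force. -/
theorem ga_bound {T : ℝ} (hT : 0 < T) {a : ℝ → E3 → E3} (h : SFV T a) {σ : ℝ} (hσ : 0 < σ) :
    ∃ τ₀ : ℝ, 0 < τ₀ ∧ τ₀ < T ∧ ∀ τ : ℝ, 0 < τ → τ ≤ τ₀ → ∀ N : (K → C3) → ℝ≥0∞, GoodN N →
      ∫⁻ t, N (fun k => Pool.Agent.H356R3.NS.fc (ga τ a t) k) ≤
        ENNReal.ofReal Cs * (N (fun k => Pool.Agent.H356R3.NS.fc (a 0) k) + ENNReal.ofReal σ) + ENNReal.ofReal σ := by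
  obtain ⟨τ1, h1, h2, h3⟩ := h.LL_cont hT (σ := σ / 2) (by positivity)
  obtain ⟨B, hB, hB'⟩ := h.nl.LL_bound (b := τ1) h2
  set τ0 := min τ1 (σ / (B + 1)) with hτ0
  have hpos : 0 < τ0 := lt_min h1 (by positivity)
  refine ⟨τ0, hpos, (min_le_left _ _).trans_lt h2, fun τ hτ hττ N hN => ?_⟩
  have hτ1 : τ ≤ τ1 := hττ.trans (min_le_left _ _)
  have hτB : τ * (B + 1) ≤ σ := by
    have := hττ.trans (min_le_right _ _)
    rwa [le_div_iff₀ (by positivity)] at this
  set N0 := N (fun k => Pool.Agent.H356R3.NS.fc (a 0) k) with hN0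
  set c : ℝ≥0∞ := ENNReal.ofReal (3 * Cs / τ) * (N0 + ENNReal.ofReal σ) + 2 * ENNReal.ofReal B with hc
  have hpt : ∀ t, N (fun k => Pool.Agent.H356R3.NS.fc (ga τ a t) k) ≤
      (Icc (τ / 3) (2 * τ / 3)).indicator (fun _ => c) t := by
    intro t
    by_cases ht : t ∈ Icc (τ / 3) (2 * τ / 3)
    · rw [indicator_of_mem ht]
      have ht1 : t ∈ Icc 0 τ1 := ⟨by have := ht.1; linarith, by have := ht.2; linarith⟩
      have htT : t ∈ Ico 0 T := ⟨ht1.1, ht1.2.trans_lt h2⟩
      rw [fc_ga h htT]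
      refine (hN.add _ _).trans (add_le_add ((hN.smul _ _).trans ?_) ((hN.smul _ _).trans ?_))
      · refine mul_le_mul' (ENNReal.ofReal_le_ofReal (sw_deriv hτ t)) ?_
        have e : (fun k => Pool.Agent.H356R3.NS.fc (a t) k) = (fun k => Pool.Agent.H356R3.NS.fc (a 0) k) +
            ((fun k => Pool.Agent.H356R3.NS.fc (a t) k) - fun k => Pool.Agent.H356R3.NS.fc (a 0) k) := by abel
        rw [e]
        refine (hN.add _ _).trans (add_le_add le_rfl ((hN.le _).trans ?_))
        refine (mul_le_mul' le_rfl (h3 t ht1)).trans (le_of_eq ?_)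
        rw [show (2 : ℝ≥0∞) = ENNReal.ofReal 2 by simp, ← ENNReal.ofReal_mul (by norm_num)]
        congr 1; ring
      · have h4 : |(-(sw τ t * (1 - sw τ t)))| ≤ 1 := by
          have a1 := sw_nonneg τ t
          have a2 := sw_le_one τ t
          rw [abs_neg, abs_of_nonneg (mul_nonneg a1 (by linarith))]
          nlinarith
        calc ENNReal.ofReal |(-(sw τ t * (1 - sw τ t)))| * N (fun k => Pool.Agent.H356R3.NS.fc (nl a t) k)
            ≤ 1 * (2 * ENNReal.ofReal B) := by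
              refine mul_le_mul' ?_ ((hN.le _).trans (mul_le_mul' le_rfl (hB' t ht1)))
              rw [← ENNReal.ofReal_one]
              exact ENNReal.ofReal_le_ofReal h4
          _ = _ := one_mul _
    · rw [indicator_of_notMem ht, ga_zero hτ ht]
      have : (fun k => Pool.Agent.H356R3.NS.fc (0 : E3 → E3) k) = (0 : K → C3) := by
        funext k i
        rw [fc_eq_fr]
        show fr (fun _ => (0 : ℝ)) k = 0
        rw [fr_const]; simp
      rw [this, hN.zero]
  calc ∫⁻ t, N (fun k => Pool.Agent.H356R3.NS.fc (ga τ a t) k)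
      ≤ ∫⁻ t, (Icc (τ / 3) (2 * τ / 3)).indicator (fun _ => c) t := lintegral_mono hpt
    _ = c * ENNReal.ofReal (τ / 3) := by
        rw [lintegral_indicator measurableSet_Icc, setLIntegral_const, Real.volume_Icc]
        congr 2; ring
    _ ≤ _ := by
        rw [hc, add_mul]
        refine add_le_add (le_of_eq ?_) ?_
        · rw [mul_comm (ENNReal.ofReal (3 * Cs / τ)), mul_assoc, ← ENNReal.ofReal_mul (by have := Cs_pos; positivity),
            mul_comm]
          congr 2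
          field_simp
        · rw [show (2 : ℝ≥0∞) = ENNReal.ofReal 2 by simp, ← ENNReal.ofReal_mul (by norm_num),
            ← ENNReal.ofReal_mul (by positivity)]
          apply ENNReal.ofReal_le_ofReal
          nlinarith

end Pool.Agent.K1H11.NS
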