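import Pool.Agent.K1H11.NS5.Force

/-!
# Exact steering by a small force
-/

open MeasureTheory Set Filter Topology
open scoped ENNReal NNReal ContDiff

namespace Pool.Agent.K1H11.NS

open H459R3.NS (cube SP Per IsSol fr)
open Pool.Agent.H356R3.NS (AdmissiblePeriodic R3 shellSum critNorm leiLin)

lemma IsSolF.congr {ν T : ℝ} {f g : ℝ → E3 → E3} {u : ℝ → E3 → E3} {p : ℝ → E3 → ℝ} (h : IsSolF ν T f u p)
    (hfg : ∀ t ∈ Ioo 0 T, ∀ x i, f t x i = g t x i) : IsSolF ν T g u p :=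
  ⟨h.smooth_u, h.smooth_p, h.per_u, h.per_p, h.divfree, fun t ht x i => by
    rw [h.momentum t ht x i, hfg t ht x i]⟩

lemma IsSolF.shift {ν t0 L : ℝ} {f : ℝ → E3 → E3} {u : ℝ → E3 → E3} {p : ℝ → E3 → ℝ}
    (h : IsSolF ν (t0 + L) f u p) (ht0 : 0 ≤ t0) :
    IsSolF ν L (fun s => f (t0 + s)) (fun s => u (t0 + s)) fun s => p (t0 + s) := by
  have hA : ContDiff ℝ ∞ fun z : ℝ × E3 => ((t0 + z.1, z.2) : ℝ × E3) :=
    (contDiff_const.add contDiff_fst).prodMk contDiff_snd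
  have hI : ∀ {t}, t ∈ Ico 0 L → t0 + t ∈ Ico 0 (t0 + L) := fun ht => ⟨by linarith [ht.1], by linarith [ht.2]⟩
  have hmaps : MapsTo (fun z : ℝ × E3 => ((t0 + z.1, z.2) : ℝ × E3)) (Ico 0 L ×ˢ univ) (Ico 0 (t0 + L) ×ˢ univ) :=
    fun z hz => ⟨hI hz.1, mem_univ _⟩
  refine ⟨h.smooth_u.comp hA.contDiffOn hmaps, h.smooth_p.comp hA.contDiffOn hmaps, fun t ht => h.per_u _ (hI ht),
    fun t ht => h.per_p _ (hI ht), fun t ht => h.divfree _ (hI ht), fun t ht x i => ?_⟩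
  have h1 := h.momentum (t0 + t) ⟨by linarith [ht.1], by linarith [ht.2]⟩ x i
  have e : deriv (fun s => u (t0 + s) x i) t = deriv (fun s => u s x i) (t0 + t) :=
    deriv_comp_const_add (f := fun s => u s x i) t0 t
  rw [e]
  exact h1

/-- the field of velocity differences -/
def df (s₀ : ℝ) (u₁ v : ℝ → E3 → E3) (s : ℝ) (x : E3) (i : Fin 3) : ℝ := v s x i - u₁ (s₀ + s) x i

lemma jf_eq_ga {τ s₀ : ℝ} (u₁ v : ℝ → E3 → E3) (t : ℝ) (x : E3) (i : Fin 3) :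
    jf (fun t => sw τ (t - s₀)) s₀ u₁ v t x i = ga τ (df s₀ u₁ v) (t - s₀) x i := by
  unfold jf ga df
  have e1 : deriv (fun t => sw τ (t - s₀)) t = deriv (sw τ) (t - s₀) := deriv_comp_sub_const (f := sw τ) s₀ t
  have e2 : s₀ + (t - s₀) = t := by ring
  simp only [e1, e2]

lemma sw_shift_smooth (τ s₀ : ℝ) : ContDiff ℝ ∞ fun t => sw τ (t - s₀) :=
  (sw_smooth τ).comp (contDiff_id.sub contDiff_const)

lemma pd_zero_fun (j : Fin 3) (x : E3) : H459R3.NS.pd j (fun _ : E3 => (0 : ℝ)) x = 0 := by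
  unfold H459R3.NS.pd
  simp

lemma ga_congr_zero {τ t : ℝ} (a : ℝ → E3 → E3) (h : a t = 0) : ga τ a t = 0 := by
  funext x i
  unfold ga
  have h1 : ∀ y j, a t y j = 0 := fun y j => by rw [h]; rfl
  simp [h1]

lemma ga_congr {τ t : ℝ} {a b : ℝ → E3 → E3} (h : a t = b t) : ga τ a t = ga τ b t := by
  funext x i
  unfold ga
  rw [h]

/-- The two switches: the solution `u⁰` is switched to `z` near the time `0` and `z` is switched to `v` near the
time `S`. -/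
theorem two_switches {ν Tu Tz Tb S τ₁ τ₂ L : ℝ} {y z b v : ℝ → E3 → E3} {py q r : ℝ → E3 → ℝ}
    (hy : IsSol ν Tu y py) (hz : IsSol ν Tz z q) (hv : IsSol ν L v r)
    (h1 : 0 < τ₁) (h1u : τ₁ < Tu) (h1S : τ₁ < S) (h2 : 0 < τ₂) (h2z : S + τ₂ < Tz) (h2L : τ₂ < L) (h2b : τ₂ < Tb)
    (hvb : ∀ t ∈ Ico 0 Tb, v t = b t) :
    IsSolF ν (S + L) (fun t x i => ga τ₁ (df 0 y z) t x i + ga τ₂ (df S z b) (t - S) x i)
      (ju (fun t => sw τ₂ (t - S)) S (ju (fun t => sw τ₁ (t - 0)) 0 y z) v)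
      (jp (fun t => sw τ₂ (t - S)) S (jp (fun t => sw τ₁ (t - 0)) 0 py q) r) := by
  have hS : 0 < S := h1.trans h1S
  set U₁ := ju (fun t => sw τ₁ (t - 0)) 0 y z with hU1
  have hTz : τ₁ < Tz := by linarith
  have J1 := join (T₁ := min Tu Tz) ((IsSolF.of hy).mono (min_le_left _ _)) hz le_rfl (sw_shift_smooth τ₁ 0)
    (α := τ₁ / 3) (β := 2 * τ₁ / 3) (by positivity) (by linarith) (lt_min (by linarith) (by linarith))
    ((min_le_right _ _).trans (by linarith)) (fun t ht => sw_zero h1 (by linarith))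
    (fun t ht => sw_one h1 (by linarith))
  rw [zero_add] at J1
  have J2 := join (T₁ := min Tz (S + L)) (J1.mono (min_le_left _ _)) hv hS.le (sw_shift_smooth τ₂ S)
    (α := S + τ₂ / 3) (β := S + 2 * τ₂ / 3) (by linarith) (by linarith) (lt_min (by linarith) (by linarith))
    (min_le_right _ _) (fun t ht => sw_zero h2 (by linarith)) (fun t ht => sw_one h2 (by linarith))
  refine J2.congr fun t ht x i => ?_
  rw [jf_eq_ga, jf_eq_ga, sub_zero, mul_zero, zero_add]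
  rcases le_or_gt t S with h | h
  · have e1 : sw τ₂ (t - S) = 0 := sw_zero h2 (by linarith)
    have e2 : ∀ a : ℝ → E3 → E3, ga τ₂ a (t - S) = 0 := fun a => ga_zero h2 (fun hh => by
      have := hh.1
      linarith) a
    rw [e1, e2, e2]
    simp
  · have e2 : ∀ a : ℝ → E3 → E3, ga τ₁ a t = 0 := fun a => ga_zero h1 (fun hh => by
      have := hh.2
      linarith) a
    rw [e2]
    simp only [Pi.zero_apply, mul_zero, zero_add]
    by_cases hin : t - S ∈ Icc (τ₂ / 3) (2 * τ₂ / 3)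
    · have e3 : df S U₁ v (t - S) = df S z b (t - S) := by
        funext x i
        unfold df
        rw [hvb (t - S) ⟨by linarith, by have := hin.2; linarith⟩]
        have e4 : S + (t - S) = t := by ring
        rw [e4]
        have e5 : U₁ t = z t := by
          funext x
          have e6 : sw τ₁ (t - 0) = 1 := sw_one h1 (by linarith)
          show (1 - sw τ₁ (t - 0)) • y t x + sw τ₁ (t - 0) • z (t - 0) x = z t x
          rw [e6, sub_zero]; simp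
        rw [e5]
      rw [ga_congr e3]
    · rw [ga_zero h2 hin, ga_zero h2 hin]

/-- After the switches an admissible solution continues an unforced one. -/
theorem continue_back {ν Tb τ₂ T S : ℝ} {b : ℝ → E3 → E3} {pb : ℝ → E3 → ℝ} (hb : IsSol ν Tb b pb)
    {f u : ℝ → E3 → E3} {p : ℝ → E3 → ℝ} (hu : ∀ L, IsSolF ν L f u p) (h2 : 0 < τ₂) (h2b : τ₂ < Tb)
    (hT : T = S + τ₂) (hT0 : 0 ≤ T) (hf : ∀ t, T ≤ t → f t = 0)
    (hub : ∀ s ∈ Ico τ₂ Tb, u (S + s) = b s) :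
    ∃ (w : ℝ → E3 → E3) (q : ℝ → E3 → ℝ), AdmissiblePeriodic ν (b 0) w q ∧ ∀ t, T ≤ t → u t = w (t - S) := by
  set v : ℝ → E3 → E3 := fun s => u (T + s) with hv
  set r : ℝ → E3 → ℝ := fun s => p (T + s) with hr
  have hvs : ∀ L, IsSol ν L v r := fun L =>
    (IsSolF.shift (hu (T + L)) hT0).to fun t ht => hf _ (by linarith [ht.1])
  set τ₃ := Tb - τ₂ with hτ₃
  have h3 : 0 < τ₃ := by rw [hτ₃]; linarith
  set χ : ℝ → ℝ := fun t => sw τ₃ (t - τ₂) with hχ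
  have hJ : ∀ L, 0 < L → IsSolF ν L (fun _ _ _ => 0) (ju χ τ₂ b v) (jp χ τ₂ pb r) := by
    intro L hL
    have J := join (T₁ := Tb) (IsSolF.of hb) (hvs (Tb + L)) h2.le (sw_shift_smooth τ₃ τ₂)
      (α := τ₂ + τ₃ / 3) (β := τ₂ + 2 * τ₃ / 3) (by linarith) (by linarith) (by rw [hτ₃]; linarith) (by linarith)
      (fun t ht => sw_zero h3 (by linarith)) (fun t ht => sw_one h3 (by linarith))
    refine (J.congr fun t ht x i => ?_).mono (T' := L) (by linarith)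
    rw [mul_zero, zero_add, jf_eq_ga]
    by_cases hin : t - τ₂ ∈ Icc (τ₃ / 3) (2 * τ₃ / 3)
    · have e : df τ₂ b v (t - τ₂) = 0 := by
        funext x i
        show v (t - τ₂) x i - b (τ₂ + (t - τ₂)) x i = 0
        have e1 : τ₂ + (t - τ₂) = t := by ring
        have e2 : T + (t - τ₂) = S + t := by rw [hT]; ring
        have e3 : v (t - τ₂) = b t := by
          show u (T + (t - τ₂)) = b t
          rw [e2]
          exact hub t ⟨by have := hin.1; linarith, by have := hin.2; rw [hτ₃] at this; linarith⟩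
        rw [e1, e3, sub_self]
      rw [ga_congr_zero _ e]; rfl
    · rw [ga_zero h3 hin]; rfl
  have hadm := (adm_forced (f := fun _ _ _ => 0) contDiff_const fun L hL => hJ L hL).toPeriodic
  have e0 : ju χ τ₂ b v 0 = b 0 := by
    funext x
    unfold ju
    have : χ 0 = 0 := sw_zero h3 (by linarith)
    rw [this]; simp
  rw [e0] at hadm
  refine ⟨_, _, hadm, fun t ht => ?_⟩
  have e1 : T + (t - S - τ₂) = t := by rw [hT]; ring
  have e2 : v (t - S - τ₂) = u t := by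
    show u (T + (t - S - τ₂)) = u t
    rw [e1]
  funext x
  show u t x = (1 - χ (t - S)) • b (t - S) x + χ (t - S) • v (t - S - τ₂) x
  rw [e2]
  rcases lt_or_ge (t - S) Tb with h | h
  · have e3 : u t = b (t - S) := by
      have := hub (t - S) ⟨by linarith, h⟩
      rwa [show S + (t - S) = t by ring] at this
    rw [← e3]
    rw [← add_smul]; simp
  · have : χ (t - S) = 1 := sw_one h3 (by rw [hτ₃]; linarith)
    rw [this]; simp

lemma SFV_df {ν T1 T2 T s₀ : ℝ} {u₁ v : ℝ → E3 → E3} {p₁ p₂ : ℝ → E3 → ℝ} (h1 : IsSol ν T1 u₁ p₁)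
    (h2 : IsSol ν T2 v p₂) (hs : 0 ≤ s₀) (hT1 : s₀ + T ≤ T1) (hT2 : T ≤ T2) : SFV T (df s₀ u₁ v) := by
  have h1' : IsSolF ν T (fun _ _ _ => 0) (fun s => u₁ (s₀ + s)) (fun s => p₁ (s₀ + s)) :=
    IsSolF.shift ((IsSolF.of h1).mono hT1) hs
  intro i
  exact SF_sub (((IsSolF.of h2).mono hT2).SF i) (h1'.SF i)

lemma df_div {ν T1 T2 T s₀ : ℝ} {u₁ v : ℝ → E3 → E3} {p₁ p₂ : ℝ → E3 → ℝ} (h1 : IsSol ν T1 u₁ p₁)
    (h2 : IsSol ν T2 v p₂) (hs : 0 ≤ s₀) (hT1 : s₀ + T ≤ T1) (hT2 : T ≤ T2) (t : ℝ) (ht : t ∈ Ico 0 T) (x : E3) :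
    ∑ i, H459R3.NS.pd i (fun y => df s₀ u₁ v t y i) x = 0 := by
  have t1 : s₀ + t ∈ Ico 0 T1 := ⟨by linarith [ht.1], by linarith [ht.2]⟩
  have t2 : t ∈ Ico 0 T2 := ⟨ht.1, by linarith [ht.2]⟩
  have e : ∀ i, H459R3.NS.pd i (fun y => df s₀ u₁ v t y i) x =
      1 * H459R3.NS.pd i (fun y => v t y i) x + -1 * H459R3.NS.pd i (fun y => u₁ (s₀ + t) y i) x := by
    intro i
    rw [← pd_lin (h2.sp t2 i) (h1.sp t1 i)]
    congr 1
    funext y
    unfold df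
    ring
  simp_rw [e]
  rw [Finset.sum_add_distrib, ← Finset.mul_sum, ← Finset.mul_sum, h2.divfree t t2, h1.divfree _ t1]
  ring

lemma sol_mean {ν T : ℝ} {u : ℝ → E3 → E3} {p : ℝ → E3 → ℝ} (h : IsSol ν T u p) {t : ℝ} (ht : t ∈ Ico 0 T)
    (i : Fin 3) : ∫ x in cube, u t x i = ∫ x in cube, u 0 x i := by
  have h2 := WH_mean h ht i
  unfold WH at h2
  rw [fr_zero, fr_zero] at h2
  exact_mod_cast h2

lemma df_mean {ν T1 T2 T s₀ : ℝ} {u₁ v : ℝ → E3 → E3} {p₁ p₂ : ℝ → E3 → ℝ} (h1 : IsSol ν T1 u₁ p₁)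
    (h2 : IsSol ν T2 v p₂) (hs : 0 ≤ s₀) (hT1 : s₀ + T ≤ T1) (hT2 : T ≤ T2)
    (hm : ∀ i, ∫ x in cube, v 0 x i = ∫ x in cube, u₁ 0 x i) (t : ℝ) (ht : t ∈ Ico 0 T) (i : Fin 3) :
    ∫ x in cube, df s₀ u₁ v t x i = 0 := by
  have t1 : s₀ + t ∈ Ico 0 T1 := ⟨by linarith [ht.1], by linarith [ht.2]⟩
  have t2 : t ∈ Ico 0 T2 := ⟨ht.1, by linarith [ht.2]⟩
  unfold df
  rw [integral_sub (h2.sp t2 i).int (h1.sp t1 i).int, sol_mean h2 t2, sol_mean h1 t1, hm, sub_self]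

end Pool.Agent.K1H11.NS
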