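import Pool.Agent.K1H11.NS5.Join

/-!
# Uniqueness of smooth forced solutions
-/

open MeasureTheory Set Filter Topology
open scoped ENNReal NNReal ContDiff

namespace Pool.Agent.K1H11.NS

open H459R3.NS (cube SP Per IsSol fr lap)

variable {ν T : ℝ} {f : ℝ → E3 → E3} {u w : ℝ → E3 → E3} {p q : ℝ → E3 → ℝ}

lemma IsSolF.SF (h : IsSolF ν T f u p) (i : Fin 3) : Ev.SF T fun s y => u s y i :=
  ⟨(contDiffOn_pi.1 h.smooth_u) i, fun s hs j x => by simp only [h.per_u s hs j x]⟩

lemma IsSolF.SFp (h : IsSolF ν T f u p) : Ev.SF T p := ⟨h.smooth_p, h.per_p⟩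

lemma SF_sub {F G : ℝ → E3 → ℝ} (hF : Ev.SF T F) (hG : Ev.SF T G) : Ev.SF T fun t x => F t x - G t x :=
  ⟨hF.smooth.sub hG.smooth, fun t ht j x => by
    show F t _ - G t _ = _
    rw [hF.per t ht j x, hG.per t ht j x]⟩

/-- A smooth periodic function with vanishing square integral is zero. -/
lemma zero_of_sq {g : E3 → ℝ} (hg : SP g) (h : ∫ x in cube, g x ^ 2 = 0) (x : E3) : g x = 0 := by
  have h1 : (fun x => g x ^ 2) =ᵐ[volume.restrict cube] 0 := by
    refine (integral_eq_zero_iff_of_nonneg (fun x => sq_nonneg _) ?_).1 h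
    exact H459R3.NS.integrableOn_cube (hg.cont.pow 2)
  have h2 : ∀ k, fr g k = 0 := by
    intro k
    unfold H459R3.NS.fr H459R3.NS.fc
    have : (fun x => H459R3.NS.ee (-k) x * ((g x : ℝ) : ℂ)) =ᵐ[volume.restrict cube] fun _ => 0 := by
      filter_upwards [h1] with x hx
      have : g x = 0 := by simpa using hx
      rw [this]; simp
    rw [integral_congr_ae this]; simp
  have h3 := H459R3.NS.S_fr hg x
  have h4 : (fr g) = fun _ => 0 := funext h2
  rw [h4] at h3
  have h5 : H459R3.NS.S (fun _ => 0) x = 0 := by simp [H459R3.NS.S]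
  rw [h5] at h3
  exact_mod_cast h3.symm

theorem IsSolF.unique (hν : 0 ≤ ν) (h1 : IsSolF ν T f u p) (h2 : IsSolF ν T f w q) (h0 : u 0 = w 0) {t : ℝ}
    (ht : t ∈ Ico 0 T) : u t = w t := by
  set a : Fin 3 → ℝ → E3 → ℝ := fun i s y => u s y i - w s y i with ha
  have hSF : ∀ i, Ev.SF T (a i) := fun i => SF_sub (h1.SF i) (h2.SF i)
  have hSP : ∀ s ∈ Ico 0 T, ∀ i, SP (a i s) := fun s hs i => (hSF i).sp hs
  obtain ⟨b, hb1, hb2⟩ := exists_between ht.2
  -- bounds
  have hM : ∃ M : ℝ, 0 ≤ M ∧ ∀ i j, ∀ s ∈ Icc 0 b, ∀ x ∈ cube, |H459R3.NS.pd j (fun y => w s y i) x| ≤ M := by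
    choose C hC using fun i j => ((h2.SF i).pd j).bound hb2
    refine ⟨∑ i, ∑ j, |C i j|, by positivity, fun i j s hs x hx => ?_⟩
    refine (hC i j s hs x hx).trans ((le_abs_self _).trans ?_)
    refine le_trans ?_ (Finset.single_le_sum (f := fun i => ∑ j, |C i j|) (fun i _ => by positivity)
      (Finset.mem_univ i))
    exact Finset.single_le_sum (f := fun j => |C i j|) (fun j _ => abs_nonneg _) (Finset.mem_univ j)
  obtain ⟨M, hM0, hM⟩ := hM
  set e : ℝ → ℝ := fun s => ∑ i, ∫ x in cube, a i s x ^ 2 with he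
  have hec : ContinuousOn e (Ico 0 T) := by
    refine continuousOn_finset_sum _ fun i _ => ?_
    exact H459R3.NS.continuousOn_int (F := fun s x => a i s x ^ 2) ((hSF i).smooth.continuousOn.pow 2)
  have hdt : ∀ s ∈ Ioo 0 T, ∀ i x, H459R3.NS.dt (a i) s x = ν * lap (a i s) x - ∑ j, u s x j * H459R3.NS.pd j (a i s) x -
      ∑ j, a j s x * H459R3.NS.pd j (fun y => w s y i) x - H459R3.NS.pd i (fun y => p s y - q s y) x := by
    intro s hs i x
    have hI : s ∈ Ico 0 T := ⟨hs.1.le, hs.2⟩
    have m1 := h1.momentum s hs x i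
    have m2 := h2.momentum s hs x i
    have d1 : HasDerivAt (fun s => u s x i) (deriv (fun s => u s x i) s) s :=
      (H459R3.NS.hasDerivAt_slice (F := fun s y => u s y i) (H459R3.NS.mono_Ioo (f := fun s y => u s y i)
        (h1.SF i).smooth (n := 1) (by norm_cast)) hs x).differentiableAt.hasDerivAt
    have d2 : HasDerivAt (fun s => w s x i) (deriv (fun s => w s x i) s) s :=
      (H459R3.NS.hasDerivAt_slice (F := fun s y => w s y i) (H459R3.NS.mono_Ioo (f := fun s y => w s y i)
        (h2.SF i).smooth (n := 1) (by norm_cast)) hs x).differentiableAt.hasDerivAt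
    have e1 : H459R3.NS.dt (a i) s x = deriv (fun s => u s x i) s - deriv (fun s => w s x i) s := (d1.sub d2).deriv
    have e2 : ∀ j y, H459R3.NS.pd j (a i s) y = H459R3.NS.pd j (fun y => u s y i) y -
        H459R3.NS.pd j (fun y => w s y i) y := by
      intro j y
      have := pd_lin ((h1.SF i).sp hI) ((h2.SF i).sp hI) 1 (-1) j y
      rw [show a i s = fun y => 1 * u s y i + -1 * w s y i from funext fun y => by simp only [ha]; ring, this]
      ring
    have e3 : lap (a i s) x = ∑ j, H459R3.NS.pd j (H459R3.NS.pd j (fun y => u s y i)) x -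
        ∑ j, H459R3.NS.pd j (H459R3.NS.pd j (fun y => w s y i)) x := by
      unfold H459R3.NS.lap
      rw [← Finset.sum_sub_distrib]
      refine Finset.sum_congr rfl fun j _ => ?_
      have := pd_lin (((h1.SF i).sp hI).pd j) (((h2.SF i).sp hI).pd j) 1 (-1) j x
      rw [show H459R3.NS.pd j (a i s) = fun y => 1 * H459R3.NS.pd j (fun y => u s y i) y +
        -1 * H459R3.NS.pd j (fun y => w s y i) y from funext fun y => by rw [e2]; ring, this]
      ring
    have e4 : H459R3.NS.pd i (fun y => p s y - q s y) x = H459R3.NS.pd i (p s) x - H459R3.NS.pd i (q s) x := by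
      have := pd_lin (h1.SFp.sp hI) (h2.SFp.sp hI) 1 (-1) i x
      rw [show (fun y => p s y - q s y) = fun y => 1 * p s y + -1 * q s y from funext fun y => by ring, this]
      ring
    rw [e1, e3, e4]
    simp only [e2]
    have e5 : ∑ j, u s x j * (H459R3.NS.pd j (fun y => u s y i) x - H459R3.NS.pd j (fun y => w s y i) x) +
        ∑ j, a j s x * H459R3.NS.pd j (fun y => w s y i) x =
        ∑ j, u s x j * H459R3.NS.pd j (fun y => u s y i) x - ∑ j, w s x j * H459R3.NS.pd j (fun y => w s y i) x := by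
      rw [← Finset.sum_add_distrib, ← Finset.sum_sub_distrib]
      exact Finset.sum_congr rfl fun j _ => by simp only [ha]; ring
    linarith
  have hde : ∀ s ∈ Ioo 0 b, ∃ e', HasDerivAt e e' s ∧ e' ≤ 6 * M * e s := by
    intro s hs
    have hs' : s ∈ Ioo 0 T := ⟨hs.1, hs.2.trans hb2⟩
    have hI : s ∈ Ico 0 T := ⟨hs.1.le, hs'.2⟩
    have d1 : ∀ i, HasDerivAt (fun s => ∫ x in cube, a i s x ^ 2) (2 * ∫ x in cube, a i s x * H459R3.NS.dt (a i) s x) s := by
      intro i
      have hF : ContDiffOn ℝ 1 (fun z : ℝ × E3 => a i z.1 z.2 ^ 2) (Ioo 0 T ×ˢ univ) :=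
        (H459R3.NS.mono_Ioo (f := a i) (hSF i).smooth (by norm_cast)).pow 2
      have key := H459R3.NS.hasDerivAt_int (F := fun s x => a i s x ^ 2) hF hs'
      refine key.congr_deriv ?_
      rw [← integral_const_mul]
      congr 1
      funext x
      have h2 : HasDerivAt (fun s => a i s x) (H459R3.NS.dt (a i) s x) s := by
        have := H459R3.NS.hasDerivAt_slice (F := a i) (H459R3.NS.mono_Ioo (f := a i) (hSF i).smooth (n := 1)
          (by norm_cast)) hs' x
        rwa [← H459R3.NS.dt_eq (f := a i) (hSF i).smooth hs' x] at this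
      have h3 : HasDerivAt (fun s => a i s x ^ 2) _ s := h2.pow 2
      rw [h3.deriv]
      simp only [Nat.cast_ofNat, Nat.add_one_sub_one, pow_one]
      ring
    refine ⟨_, HasDerivAt.fun_sum fun i _ => d1 i, ?_⟩
    have hu : ∀ i, SP (fun y => u s y i) := fun i => (h1.SF i).sp hI
    have hdu : ∀ x, ∑ i, H459R3.NS.pd i (fun y => u s y i) x = 0 := h1.divfree s hI
    have hda : ∀ x, ∑ i, H459R3.NS.pd i (a i s) x = 0 := by
      intro x
      have e2 : ∀ i, H459R3.NS.pd i (a i s) x = H459R3.NS.pd i (fun y => u s y i) x -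
          H459R3.NS.pd i (fun y => w s y i) x := by
        intro i
        have := pd_lin ((h1.SF i).sp hI) ((h2.SF i).sp hI) 1 (-1) i x
        rw [show a i s = fun y => 1 * u s y i + -1 * w s y i from funext fun y => by simp only [ha]; ring, this]
        ring
      simp only [e2]
      rw [Finset.sum_sub_distrib, h1.divfree s hI, h2.divfree s hI, sub_zero]
    have hA := hSP s hI
    have hW : ∀ i, SP (fun y => w s y i) := fun i => (h2.SF i).sp hI
    have hP : SP (fun y => p s y - q s y) := (SF_sub h1.SFp h2.SFp).sp hI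
    -- the four terms
    have t1 : ∀ i, ∫ x in cube, a i s x * H459R3.NS.dt (a i) s x = ν * (∫ x in cube, lap (a i s) x * a i s x) -
        (∑ j, ∫ x in cube, u s x j * (a i s x * H459R3.NS.pd j (a i s) x)) -
        (∑ j, ∫ x in cube, a i s x * (a j s x * H459R3.NS.pd j (fun y => w s y i) x)) -
        ∫ x in cube, a i s x * H459R3.NS.pd i (fun y => p s y - q s y) x := by
      intro i
      have e1 : ∀ x, a i s x * H459R3.NS.dt (a i) s x = ν * (lap (a i s) x * a i s x) -
          (∑ j, u s x j * (a i s x * H459R3.NS.pd j (a i s) x)) -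
          (∑ j, a i s x * (a j s x * H459R3.NS.pd j (fun y => w s y i) x)) -
          a i s x * H459R3.NS.pd i (fun y => p s y - q s y) x := by
        intro x
        rw [hdt s hs' i x, ← Finset.mul_sum]
        have : ∑ j, u s x j * (a i s x * H459R3.NS.pd j (a i s) x) =
            a i s x * ∑ j, u s x j * H459R3.NS.pd j (a i s) x := by
          rw [Finset.mul_sum]; exact Finset.sum_congr rfl fun j _ => by ring
        rw [this]; ring
      simp_rw [e1]
      have i1 : IntegrableOn (fun x => ν * (lap (a i s) x * a i s x)) cube :=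
        (((hA i).lap.mul (hA i)).int).const_mul _
      have i2 : ∀ j, IntegrableOn (fun x => u s x j * (a i s x * H459R3.NS.pd j (a i s) x)) cube := fun j =>
        ((hu j).mul ((hA i).mul ((hA i).pd j))).int
      have i3 : ∀ j, IntegrableOn (fun x => a i s x * (a j s x * H459R3.NS.pd j (fun y => w s y i) x)) cube :=
        fun j => ((hA i).mul ((hA j).mul ((hW i).pd j))).int
      have i4 : IntegrableOn (fun x => a i s x * H459R3.NS.pd i (fun y => p s y - q s y) x) cube :=
        ((hA i).mul (hP.pd i)).int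
      have i2' : IntegrableOn (fun x => ∑ j, u s x j * (a i s x * H459R3.NS.pd j (a i s) x)) cube :=
        integrable_finset_sum _ fun j _ => i2 j
      have i3' : IntegrableOn (fun x => ∑ j, a i s x * (a j s x * H459R3.NS.pd j (fun y => w s y i) x)) cube :=
        integrable_finset_sum _ fun j _ => i3 j
      have i12 : IntegrableOn (fun x => ν * (lap (a i s) x * a i s x) -
          ∑ j, u s x j * (a i s x * H459R3.NS.pd j (a i s) x)) cube := i1.sub i2'
      have i123 : IntegrableOn (fun x => ν * (lap (a i s) x * a i s x) -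
          (∑ j, u s x j * (a i s x * H459R3.NS.pd j (a i s) x)) -
          (∑ j, a i s x * (a j s x * H459R3.NS.pd j (fun y => w s y i) x))) cube := i12.sub i3'
      rw [integral_sub i123 i4, integral_sub i12 i3', integral_sub i1 i2',
        integral_finset_sum _ fun j _ => i2 j, integral_finset_sum _ fun j _ => i3 j, integral_const_mul]
    have s1 : ∀ i, ∫ x in cube, lap (a i s) x * a i s x ≤ 0 := by
      intro i
      rw [H459R3.NS.int_lap_mul (hA i) (hA i)]
      have : 0 ≤ ∑ j, ∫ x in cube, H459R3.NS.pd j (a i s) x * H459R3.NS.pd j (a i s) x :=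
        Finset.sum_nonneg fun j _ => integral_nonneg fun x => mul_self_nonneg _
      linarith
    have s2 : ∀ i, ∑ j, ∫ x in cube, u s x j * (a i s x * H459R3.NS.pd j (a i s) x) = 0 := fun i =>
      H459R3.NS.transport_zero (v := fun j y => u s y j) hu hdu (hA i)
    have s4 : ∑ i, ∫ x in cube, a i s x * H459R3.NS.pd i (fun y => p s y - q s y) x = 0 :=
      H459R3.NS.int_press (v := fun i => a i s) hA hda hP
    have hcz : MeasurableSet cube := measurableSet_Icc
    have s3 : ∀ i j, -(∫ x in cube, a i s x * (a j s x * H459R3.NS.pd j (fun y => w s y i) x)) ≤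
        M / 2 * ((∫ x in cube, a i s x ^ 2) + ∫ x in cube, a j s x ^ 2) := by
      intro i j
      have q1 : IntegrableOn (fun x => a i s x ^ 2) cube := H459R3.NS.integrableOn_cube ((hA i).cont.pow 2)
      have q2 : IntegrableOn (fun x => a j s x ^ 2) cube := H459R3.NS.integrableOn_cube ((hA j).cont.pow 2)
      rw [← integral_neg, ← integral_add q1 q2, ← integral_const_mul]
      refine setIntegral_mono_on ((hA i).mul ((hA j).mul ((hW i).pd j))).int.neg
        ((H459R3.NS.integrableOn_cube (((hA i).cont.pow 2).add ((hA j).cont.pow 2))).const_mul _) hcz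
        fun x hx => ?_
      have hb := hM i j s ⟨hs.1.le, hs.2.le⟩ x hx
      have h1 : -(a i s x * (a j s x * H459R3.NS.pd j (fun y => w s y i) x)) ≤
          |a i s x| * |a j s x| * M := by
        refine (neg_le_abs _).trans ?_
        rw [abs_mul, abs_mul, ← mul_assoc]
        exact mul_le_mul_of_nonneg_left hb (by positivity)
      have h2 : |a i s x| * |a j s x| ≤ (a i s x ^ 2 + a j s x ^ 2) / 2 := by
        have := two_mul_le_add_sq |a i s x| |a j s x|
        rw [sq_abs, sq_abs] at this
        linarith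
      calc _ ≤ |a i s x| * |a j s x| * M := h1
        _ ≤ (a i s x ^ 2 + a j s x ^ 2) / 2 * M := mul_le_mul_of_nonneg_right h2 hM0
        _ = _ := by ring
    have hsum : ∑ i, 2 * ∫ x in cube, a i s x * H459R3.NS.dt (a i) s x =
        2 * (ν * (∑ i, ∫ x in cube, lap (a i s) x * a i s x)) +
        2 * ∑ i, ∑ j, -(∫ x in cube, a i s x * (a j s x * H459R3.NS.pd j (fun y => w s y i) x)) := by
      simp_rw [t1, s2]
      rw [← Finset.mul_sum]
      simp only [Finset.sum_sub_distrib, Finset.sum_neg_distrib, sub_zero]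
      rw [s4, ← Finset.mul_sum]
      ring
    rw [hsum]
    have b1 : ν * (∑ i, ∫ x in cube, lap (a i s) x * a i s x) ≤ 0 :=
      mul_nonpos_of_nonneg_of_nonpos hν (Finset.sum_nonpos fun i _ => s1 i)
    have b2 : ∑ i, ∑ j, -(∫ x in cube, a i s x * (a j s x * H459R3.NS.pd j (fun y => w s y i) x)) ≤
        3 * M * e s := by
      calc _ ≤ ∑ i : Fin 3, ∑ j : Fin 3, M / 2 * ((∫ x in cube, a i s x ^ 2) + ∫ x in cube, a j s x ^ 2) :=
            Finset.sum_le_sum fun i _ => Finset.sum_le_sum fun j _ => s3 i j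
        _ = 3 * M * e s := by
            simp only [he, Fin.sum_univ_three]
            ring
    linarith
  -- Gronwall
  have hb0 : 0 ≤ b := ht.1.trans hb1.le
  have hanti : AntitoneOn (fun s => Real.exp (-(6 * M * s)) * e s) (Icc 0 b) := by
    have hexp : Continuous fun s : ℝ => Real.exp (-(6 * M * s)) := by fun_prop
    refine antitoneOn_of_deriv_nonpos (convex_Icc 0 b)
      (hexp.continuousOn.mul (hec.mono fun s hs => ⟨hs.1, hs.2.trans_lt hb2⟩)) ?_ ?_
    · rw [interior_Icc]
      intro s hs
      obtain ⟨e', he', -⟩ := hde s hs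
      exact (by fun_prop : DifferentiableAt ℝ (fun s : ℝ => Real.exp (-(6 * M * s))) s).mul
        he'.differentiableAt |>.differentiableWithinAt
    · rw [interior_Icc]
      intro s hs
      obtain ⟨e', he', hle⟩ := hde s hs
      have h3 : HasDerivAt (fun s : ℝ => Real.exp (-(6 * M * s))) (Real.exp (-(6 * M * s)) * (-(6 * M))) s := by
        have : HasDerivAt (fun s : ℝ => -(6 * M * s)) (-(6 * M)) s := by
          have h := ((hasDerivAt_id s).const_mul (6 * M)).neg
          rw [mul_one] at h
          exact h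
        exact this.exp
      have h5 : HasDerivAt (fun s => Real.exp (-(6 * M * s)) * e s) _ s := h3.mul he'
      rw [h5.deriv]
      have h4 := Real.exp_pos (-(6 * M * s))
      nlinarith
  have he0 : e 0 = 0 := by
    simp only [he, ha, h0, sub_self]
    simp
  have het : e t ≤ 0 := by
    have h3 := hanti (⟨le_rfl, hb0⟩ : (0 : ℝ) ∈ Icc 0 b) (⟨ht.1, hb1.le⟩ : t ∈ Icc 0 b) ht.1
    simp only [he0, mul_zero] at h3
    have h4 := Real.exp_pos (-(6 * M * t))
    by_contra hcon
    push Not at hcon
    have := mul_pos h4 hcon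
    linarith
  have hnn : ∀ i, 0 ≤ ∫ x in cube, a i t x ^ 2 := fun i => integral_nonneg fun x => sq_nonneg _
  funext x i
  have hi : ∫ x in cube, a i t x ^ 2 = 0 := by
    refine le_antisymm ?_ (hnn i)
    exact (Finset.single_le_sum (f := fun i => ∫ x in cube, a i t x ^ 2) (fun i _ => hnn i) (Finset.mem_univ i)).trans
      het
  have := zero_of_sq (hSP t ht i) hi x
  simp only [ha] at this
  linarith

end Pool.Agent.K1H11.NS
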